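import Pool.Agent.J4H70.ML.G
import Pool.Agent.R240.Loc

set_option autoImplicit false

/-! # Postcritically finite parameters: almost every circle, local connectivity -/

namespace Pool.Agent.J4H70.ML

open Filter Topology Set Metric MeasureTheory Pool.Agent.H712R2
open Pool.Agent.Y736.RN
open Pool.Agent.R240.Loc
open N62a1eb23

variable {d : ℕ}

/-- the circles about a point that meet a small set -/
theorem circles_null {A : Set ℂ} (h : dimH A < 1) (p : ℂ) :
    volume ((fun z => dist z p) '' A) = 0 := by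
  have h1 : LipschitzWith 1 (fun z : ℂ => dist z p) := LipschitzWith.dist_left p
  have h2 : dimH ((fun z => dist z p) '' A) < 1 := (h1.dimH_image_le A).trans_lt h
  have h3 := hausdorffMeasure_of_dimH_lt (d := 1) (s := (fun z => dist z p) '' A)
    (by exact_mod_cast h2)
  simpa [hausdorffMeasure_real] using h3

theorem cik_interior {K : Set ℂ} {c : ℂ} (h : c ∈ interior K) : CIK K c := by
  intro ε hε
  obtain ⟨δ, hδ, hsub⟩ := Metric.isOpen_iff.1 isOpen_interior c h
  refine ⟨min δ ε, lt_min hδ hε, ?_⟩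
  intro q _ hq
  refine ⟨ball c (min δ ε), ?_, (convex_ball _ _).isPreconnected, mem_ball_self (lt_min hδ hε), hq⟩
  intro x hx
  exact ⟨interior_subset (hsub (ball_subset_ball (min_le_left _ _) hx)),
    ball_subset_ball (min_le_right _ _) hx⟩

/-- far from the postcritically finite parameters -/
def FarPCF (d p : ℕ) (X : ℝ) (c : ℂ) : Prop :=
  ∀ᶠ n : ℕ in atTop, ∀ a : ℂ, PCF d p n a → Real.exp (-(X * n)) < ‖a - c‖

/-- far from the postcritically finite parameters, at all periods of renormalization -/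
def Sep (d : ℕ) (c : ℂ) : Prop :=
  ∀ p : ℕ, 1 ≤ p → Ren d c p → ∀ X : ℝ, Real.log d / p < X → FarPCF d p X c

/-- almost every circle misses the other parameters -/
theorem ae_sep (hd : 2 ≤ d) (p₀ : ℂ) :
    ∀ᵐ s : ℝ, ∀ c ∈ frontier (multibrotSet d), dist c p₀ = s → Sep d c := by
  have hdR : (1 : ℝ) < d := by exact_mod_cast (by omega : 1 < d)
  have hlogd : 0 < Real.log d := Real.log_pos hdR
  have h1 : ∀ (p : ℕ) (q : ℚ), 1 ≤ p → Real.log d / p < (q : ℝ) →
      ∀ᵐ s : ℝ, ∀ c : ℂ, dist c p₀ = s →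
        ¬ (c ∈ frontier (multibrotSet d) ∧ Ren d c p ∧ Near2 d p q c) := by
    intro p q hp hq
    have hp0 : (0 : ℝ) < p := by exact_mod_cast hp
    have hq0 : (0 : ℝ) < q := lt_trans (by positivity) hq
    have h2 : dimH {c | c ∈ frontier (multibrotSet d) ∧ Ren d c p ∧ Near2 d p q c} < 1 := by
      refine (dim_near2 hd hp hq0).trans_lt ?_
      rw [← ENNReal.ofReal_one, ENNReal.ofReal_lt_ofReal_iff one_pos, div_lt_one (by positivity)]
      rwa [div_lt_iff₀ hp0, mul_comm] at hq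
    have h3 := circles_null h2 p₀
    have h4 : ∀ᵐ s : ℝ, s ∉ (fun z => dist z p₀) ''
        {c | c ∈ frontier (multibrotSet d) ∧ Ren d c p ∧ Near2 d p q c} :=
      measure_eq_zero_iff_ae_notMem.1 h3
    filter_upwards [h4] with s hs c hc hcon
    exact hs ⟨c, hcon, hc⟩
  have h2 : ∀ᵐ s : ℝ, ∀ (p : ℕ) (q : ℚ), 1 ≤ p → Real.log d / p < (q : ℝ) →
      ∀ c : ℂ, dist c p₀ = s →
        ¬ (c ∈ frontier (multibrotSet d) ∧ Ren d c p ∧ Near2 d p q c) := by
    rw [ae_all_iff]; intro p
    rw [ae_all_iff]; intro q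
    by_cases hp : 1 ≤ p
    · by_cases hq : Real.log d / p < (q : ℝ)
      · filter_upwards [h1 p q hp hq] with s hs _ _
        exact hs
      · exact ae_of_all _ fun s _ h => absurd h hq
    · exact ae_of_all _ fun s h => absurd h hp
  filter_upwards [h2] with s hs c hc hcs p hp hr X hX
  by_contra hcon
  unfold FarPCF at hcon
  rw [not_eventually] at hcon
  obtain ⟨q, hq1, hq2⟩ := exists_rat_btwn hX
  refine hs p q hp hq1 c hcs ⟨hc, hr, Near2.mono hq2.le (hcon.mono ?_)⟩
  intro n hn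
  push Not at hn
  exact hn

/-- **Spreading to separated parameters.** -/
theorem spread_sep (hd : 2 ≤ d) {p₀ : ℂ} (h : ¬ CIK (multibrotSet d) p₀) :
    ∃ ε : ℝ, 0 < ε ∧ ∀ᵐ s : ℝ, 0 < s → s < ε →
      ∃ c ∈ frontier (multibrotSet d), dist c p₀ = s ∧ Sep d c ∧ ¬ CIK (multibrotSet d) c := by
  obtain ⟨ε, hε, hs⟩ := spread (isCompact_multibrot hd) (isConnected_multibrot hd).isPreconnected h
  refine ⟨ε, hε, ?_⟩
  filter_upwards [ae_sep hd p₀] with s h1 hs0 hsε
  obtain ⟨z, hz, hzs, hzc⟩ := hs s hs0 hsε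
  have hzf : z ∈ frontier (multibrotSet d) :=
    ⟨subset_closure hz, fun hi => hzc (cik_interior hi)⟩
  exact ⟨z, hzf, hzs, h1 z hzf hzs, hzc⟩

/-- local connectivity is decided at the separated parameters -/
theorem lcs_sep (hd : 2 ≤ d) : LocallyConnectedSpace (multibrotSet d) ↔
    ∀ c ∈ frontier (multibrotSet d), Sep d c → CIK (multibrotSet d) c := by
  constructor
  · intro h c hc _
    exact lcs_iff.1 h c ((isCompact_multibrot hd).isClosed.frontier_subset hc)
  · intro h
    refine lcs_iff.2 fun p₀ _ => ?_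
    by_contra hcon
    obtain ⟨ε, hε, h1⟩ := spread_sep hd hcon
    have h3 : ∃ s : ℝ, s ∈ Ioo 0 ε ∧ (0 < s → s < ε →
        ∃ c ∈ frontier (multibrotSet d), dist c p₀ = s ∧ Sep d c ∧
          ¬ CIK (multibrotSet d) c) := by
      by_contra h4
      push Not at h4
      have h5 : volume (Ioo 0 ε) = 0 := by
        apply measure_mono_null _ h1
        intro s hs hcon
        obtain ⟨h6, h7, h8⟩ := h4 s hs
        obtain ⟨c, hc1, hc2, hc3, hc4⟩ := hcon h6 h7
        exact hc4 (h8 c hc1 hc2 hc3)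
      rw [Real.volume_Ioo, ENNReal.ofReal_eq_zero] at h5
      linarith
    obtain ⟨s, hs, h4⟩ := h3
    obtain ⟨c, hc1, _, hc3, hc4⟩ := h4 hs.1 hs.2
    exact hc4 (h c hc1 hc3)

end Pool.Agent.J4H70.ML
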