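import Pool.Agent.J4H70.ML.E
import Pool.Agent.Y736.RN.D

set_option autoImplicit false

/-! # Postcritically finite parameters: the counting lemma -/

namespace Pool.Agent.J4H70.ML

open Filter Topology Set Metric MeasureTheory Pool.Agent.H712R2
open Pool.Agent.Y736.RN

variable {d p : ℕ}

/-- the number of the trapped preimages of a generic target -/
theorem generic_target (hd : 2 ≤ d) (hp : 1 ≤ p) {V : Set ℂ}
    (hVo : IsOpen V) (hVb : Bornology.IsBounded V) {c₁ c' : ℂ} {δ : ℝ}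
    (hfr : ∀ c ∈ ball c₁ δ, ∀ z ∈ frontier V, (fc d c)^[p] z ∉ closure V)
    (hdeg : Deg d p V c₁) (hc' : c' ∈ ball c₁ δ) {w : ℂ} (hw : w ∈ V)
    (hseg : ∀ c ∈ segment ℝ c₁ c', ∀ m, P d m c ≠ w) (j : ℕ) (hj : 1 ≤ j) :
    (YY d p V w j c').Finite ∧ (YY d p V w j c').ncard ≤ d ^ j := by
  have hδ : 0 < δ := by
    have h := mem_ball.1 hc'
    exact dist_nonneg.trans_lt h
  have hsegB : segment ℝ c₁ c' ⊆ ball c₁ δ :=
    (convex_ball c₁ δ).segment_subset (mem_ball_self hδ) hc'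
  have hloc := fun c (hc : c ∈ segment ℝ c₁ c') =>
    (local_B lp hd hVo hVb isOpen_ball hfr hw hj 1 (hsegB hc)
      (fun k _ _ => hseg c hc k)).1
  have h1 : ∀ c ∈ segment ℝ c₁ c', ContinuousWithinAt
      (fun c => (YY d p V w j c).ncard) (segment ℝ c₁ c') c := by
    intro c hc
    have h3 : (fun c => (YY d p V w j c).ncard) =ᶠ[𝓝 c] fun _ => (YY d p V w j c).ncard := by
      filter_upwards [hloc c hc] with a ha using ha.2
    exact (continuousAt_const.congr h3.symm).continuousWithinAt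
  have h2 := (convex_segment c₁ c').isPreconnected.constant (f := fun c => (YY d p V w j c).ncard)
    h1 (left_mem_segment ℝ c₁ c') (right_mem_segment ℝ c₁ c')
  refine ⟨((hloc c' (right_mem_segment ℝ c₁ c')).self_of_nhds).1, ?_⟩
  have h3 := (tree hdeg hw j).2
  have h4 : (YY d p V w j c₁).ncard = (YY d p V w j c').ncard := h2
  rw [← h4]
  exact h3

/-- escaping parameters have no coincidences -/
theorem not_E1 {c : ℂ} (hc : Tendsto (fun k => P d k c) atTop (Bornology.cobounded ℂ)) (N : ℕ) :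
    c ∉ E1 d N := by
  rintro ⟨a, b, h1, -, h3⟩
  have h4 : ∀ n : ℕ, P d (a + n * (b - a)) c = P d a c := by
    intro n
    induction n with
    | zero => simp
    | succ n ih =>
      have e : a + (n + 1) * (b - a) = (a + n * (b - a)) + (b - a) := by ring
      have e2 : b = (b - a) + a := by omega
      have h5 : P d ((a + n * (b - a)) + (b - a)) c = (fc d c)^[b - a] (P d (a + n * (b - a)) c) := by
        rw [iter_P, Nat.add_comm]
      rw [e, h5, ih, iter_P, ← e2, h3]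
  have h5 : Tendsto (fun n : ℕ => a + n * (b - a)) atTop atTop :=
    tendsto_atTop_mono (fun n => (Nat.le_mul_of_pos_right n (by omega)).trans
      (Nat.le_add_left _ _)) tendsto_id
  have h6 := (hc.comp h5).eventually (Bornology.isBounded_def.1
    (Bornology.isBounded_singleton (x := P d a c)))
  obtain ⟨n, hn⟩ := h6.exists
  exact hn (h4 n)

/-- **The counting lemma for return relations.** -/
theorem count2 (hd : 2 ≤ d) (hp : 1 ≤ p) {V : Set ℂ}
    (hVo : IsOpen V) (hVb : Bornology.IsBounded V) {c₁ c' : ℂ} {δ : ℝ} (hδ : 0 < δ)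
    (hfr : ∀ c ∈ ball c₁ δ, ∀ z ∈ frontier V, (fc d c)^[p] z ∉ closure V)
    (hdeg : Deg d p V c₁) (hc' : ‖c' - c₁‖ < δ / 16)
    (hesc : Tendsto (fun k => P d k c') atTop (Bornology.cobounded ℂ))
    (hE2 : ∀ N, 1 ≤ N → c' ∉ E2 d N) :
    ∃ (C : ℝ) (J : ℕ), ∀ i j, i < j → J ≤ j →
      {c | c ∈ ball c₁ (δ / 16) ∧ (∀ l < j, P d (p * l) c ∈ V) ∧
        P d (p * j) c = P d (p * i) c}.Finite ∧
      ({c | c ∈ ball c₁ (δ / 16) ∧ (∀ l < j, P d (p * l) c ∈ V) ∧
        P d (p * j) c = P d (p * i) c}.ncard : ℝ) ≤ C * (d : ℝ) ^ j := by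
  have hc'B : c' ∈ ball c₁ δ := by
    rw [mem_ball, dist_eq_norm]
    linarith
  -- the number of solutions at `c'`
  obtain ⟨C₀, hC₀⟩ := count_dyn hd hp hVo hVb (hfr c' hc'B) hesc (null_bad d c₁ c')
    (fun w hw hwB j hj => generic_target hd hp hVo hVb hfr hdeg hc'B hw
      (fun c hc m h => hwB ⟨m, c, hc, h⟩) j hj)
  -- an exit time
  obtain ⟨i₀, hi₀⟩ : ∃ i, P d (p * i) c' ∉ closure V := by
    have h2 : Tendsto (fun i : ℕ => p * i) atTop atTop :=
      tendsto_atTop_mono (fun i => Nat.le_mul_of_pos_left i hp) tendsto_id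
    exact ((hesc.comp h2).eventually (Bornology.isBounded_def.1 hVb.closure)).exists
  obtain ⟨η₀, hη₀, hη₀'⟩ : ∃ η₀ > 0, ∀ y : ℂ, ‖y‖ < η₀ → (fc d c')^[p * i₀] y ∉ closure V := by
    have h1 : IsOpen {y | (fc d c')^[p * i₀] y ∉ closure V} :=
      isClosed_closure.isOpen_compl.preimage (cont_it_y d _ _)
    obtain ⟨η, hη, h2⟩ := Metric.isOpen_iff.1 h1 0 hi₀
    exact ⟨η, hη, fun y hy => h2 (mem_ball_zero_iff.2 hy)⟩
  obtain ⟨R₀, hR₀⟩ := hVb.exists_norm_le
  obtain ⟨R, hRdef⟩ : ∃ R, R = max R₀ (max 1 (2 * η₀)) := ⟨_, rfl⟩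
  have hR1 : 1 ≤ R := by rw [hRdef]; exact (le_max_left _ _).trans (le_max_right _ _)
  have hR : 0 < R := by linarith
  have hRη : 2 * η₀ ≤ R := by rw [hRdef]; exact (le_max_right _ _).trans (le_max_right _ _)
  have hVR : ∀ y ∈ V, ‖y‖ ≤ R := fun y hy => (hR₀ y hy).trans (by rw [hRdef]; exact le_max_left _ _)
  have hq0 : 0 < η₀ / R := by positivity
  have hq1 : η₀ / R < 1 := by rw [div_lt_one hR]; linarith
  have hlog : 0 < Real.log (R / η₀) := Real.log_pos (by rw [one_lt_div hη₀]; linarith)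
  have hlog2 : 0 < Real.log 2 := Real.log_pos (by norm_num)
  refine ⟨C₀ * Real.log (R / η₀) / Real.log 2, i₀ + 1, fun i j hij hj => ?_⟩
  have hj1 : 1 ≤ j := by omega
  have hpj : 1 ≤ p * j := Nat.mul_pos hp hj1
  have hpij : p * i < p * j := Nat.mul_lt_mul_of_pos_left hij hp
  obtain ⟨EE, hEE⟩ : ∃ EE : Set ℂ, EE = E1 d (p * j) ∪ E2 d (p * (j - i)) := ⟨_, rfl⟩
  have hEfin : EE.Finite := by
    rw [hEE]
    exact (E1_finite hd _).union (E2_finite hd (Nat.mul_pos hp (by omega)))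
  have hfinZ : {c | c ∈ ball c₁ (δ / 16) ∧ (∀ l < j, P d (p * l) c ∈ V) ∧
      P d (p * j) c = P d (p * i) c}.Finite := by
    refine (E1_finite hd (p * j)).subset ?_
    rintro c ⟨_, _, h⟩
    exact ⟨p * i, p * j, hpij, le_rfl, h⟩
  refine ⟨hfinZ, ?_⟩
  have hSV : ∀ c, ∀ y ∈ SS d p V i j c, ‖y‖ ≤ R := by
    intro c y hy
    apply hVR
    have := hy.1 0 hj1
    simpa using this
  have hc'E : c' ∉ EE := by
    rw [hEE]
    rintro (h | h)
    · exact not_E1 hesc _ h
    · exact hE2 _ (Nat.mul_pos hp (by omega)) h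
  have hsub : ball c' (δ / 2) ⊆ ball c₁ δ := by
    apply ball_subset_ball'
    rw [dist_eq_norm]
    linarith
  obtain ⟨hc'fin, hcard⟩ := hC₀ i j hij
  have hlow : (η₀ / R) ^ (C₀ * d ^ j) ≤ ‖BQ (SS d p V i j c') R‖ := by
    apply BQ_ge hη₀ (by linarith) hc'fin hcard
    intro y hy
    by_contra hlt
    push Not at hlt
    exact hη₀' y hlt (subset_closure (hy.1 i₀ (by omega)))
  have key := jz (fun c => BQ (SS d p V i j c) R) c' (δ / 2) 1 ((η₀ / R) ^ (C₀ * d ^ j))
    EE hfinZ.toFinset (by positivity) hEfin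
    (by
      rintro c ⟨hc1, hc2⟩
      refine ((local_S hd hp hVo hVb isOpen_ball hfr hij R (hsub hc1) ?_ ?_).2
        ).differentiableWithinAt
      · intro h
        exact hc2 (by rw [hEE]; exact Or.inl h)
      · intro h
        exact hc2 (by rw [hEE]; exact Or.inr h))
    (fun c _ => BQ_le hR (hSV c)) hc'E hlow (by
      intro c hc
      rw [Set.Finite.coe_toFinset] at hc
      have h1 := hc.1
      rw [mem_ball, dist_eq_norm] at h1 ⊢
      have h2 : ‖c - c'‖ ≤ ‖c - c₁‖ + ‖c' - c₁‖ := by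
        rw [← dist_eq_norm, ← dist_eq_norm, ← dist_eq_norm]
        exact dist_triangle_right _ _ _
      linarith)
    (by
      intro ĉ hĉ
      rw [Set.Finite.mem_toFinset] at hĉ
      obtain ⟨h1, h2, h3⟩ := hĉ
      rw [Metric.tendsto_nhds]
      intro ε hε
      have h4 := persist2 hd hp hVo hij h2 h3 (ε := ε * R) (by positivity)
      have h5 : ∀ᶠ c in 𝓝[≠] ĉ, c ∉ EE := by
        have h6 : IsClosed (EE \ {ĉ}) := (hEfin.subset sdiff_subset).isClosed
        have h7 : (EE \ {ĉ})ᶜ ∈ 𝓝 ĉ := h6.isOpen_compl.mem_nhds (by simp)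
        filter_upwards [mem_nhdsWithin_of_mem_nhds h7, self_mem_nhdsWithin] with c hc1 hc2 hc3
        exact hc1 ⟨hc3, hc2⟩
      have h6 : ∀ᶠ c in 𝓝[≠] ĉ, c ∈ ball c₁ δ := by
        apply mem_nhdsWithin_of_mem_nhds
        exact isOpen_ball.mem_nhds (ball_subset_ball (by linarith) h1)
      filter_upwards [nhdsWithin_le_nhds h4, h5, h6] with c hc1 hc2 hc3
      obtain ⟨y, hy1, hy2⟩ := hc1
      rw [dist_zero_right]
      rw [hEE] at hc2
      have hf := ((local_S hd hp hVo hVb isOpen_ball hfr hij R hc3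
        (fun h => hc2 (Or.inl h)) (fun h => hc2 (Or.inr h))).1.self_of_nhds).1
      exact BQ_small hR (hSV c) hf hy2 hy1)
  rw [← Set.ncard_eq_toFinset_card _ hfinZ] at key
  have h1 : (2 : ℝ) ^ ({c | c ∈ ball c₁ (δ / 16) ∧ (∀ l < j, P d (p * l) c ∈ V) ∧
      P d (p * j) c = P d (p * i) c}.ncard) ≤ (R / η₀) ^ (C₀ * d ^ j) := by
    have h2 : (R / η₀) ^ (C₀ * d ^ j) = 1 / (η₀ / R) ^ (C₀ * d ^ j) := by
      rw [← inv_div, inv_pow, one_div]
    rw [h2, le_div_iff₀ (by positivity)]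
    linarith
  have h2 := Real.log_le_log (by positivity) h1
  rw [Real.log_pow, Real.log_pow] at h2
  rw [div_mul_eq_mul_div, le_div_iff₀ hlog2]
  push_cast at h2
  linarith

end Pool.Agent.J4H70.ML
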