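import Pool.Agent.J4H70.ML.F
import Pool.Agent.Y736.RN.F
import Pool.Agent.Y736.RN.DC
import Pool.Agent.Y736.RN.QS
import Pool.Agent.Y736.RN.SEQ
import Pool.Agent.H712R2.MultibrotConnected

set_option autoImplicit false

/-! # Postcritically finite parameters: the dimension of the well approximated parameters -/

namespace Pool.Agent.J4H70.ML

open Filter Topology Set Metric MeasureTheory Pool.Agent.H712R2
open Pool.Agent.Y736.RN
open N62a1eb23

variable {d p : ℕ}

/-- the critical orbit closes up at time `n`, with a period divisible by `p` -/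
def PCF (d p n : ℕ) (a : ℂ) : Prop := ∃ m < n, p ∣ n - m ∧ P d n a = P d m a

/-- infinitely often exponentially close to a postcritically finite parameter -/
def Near2 (d p : ℕ) (X : ℝ) (c : ℂ) : Prop :=
  ∃ᶠ n : ℕ in atTop, ∃ a : ℂ, PCF d p n a ∧ ‖a - c‖ ≤ Real.exp (-(X * n))

/-- an escaping parameter close to a boundary parameter -/
theorem exists_esc (hd : 2 ≤ d) {c₁ : ℂ} (hc₁ : c₁ ∈ frontier (multibrotSet d)) {ε : ℝ}
    (hε : 0 < ε) : ∃ c' : ℂ, ‖c' - c₁‖ < ε ∧
      Tendsto (fun k => P d k c') atTop (Bornology.cobounded ℂ) ∧ ∀ N, 1 ≤ N → c' ∉ E2 d N := by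
  have hMc : IsClosed (multibrotSet d) := (isCompact_multibrot hd).isClosed
  have h1 : c₁ ∈ closure (multibrotSet d)ᶜ := by
    rw [frontier_eq_closure_inter_closure] at hc₁
    exact hc₁.2
  have h2 : ((multibrotSet d)ᶜ ∩ ball c₁ ε).Nonempty := by
    obtain ⟨c'', hc''M, hc''⟩ := Metric.mem_closure_iff.1 h1 ε hε
    exact ⟨c'', hc''M, by rwa [mem_ball, dist_comm]⟩
  have h3 : IsOpen ((multibrotSet d)ᶜ ∩ ball c₁ ε) := hMc.isOpen_compl.inter isOpen_ball
  have h4 : 0 < volume ((multibrotSet d)ᶜ ∩ ball c₁ ε) := h3.measure_pos volume h2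
  have h5 : (⋃ N : ℕ, E2 d (N + 1)).Countable :=
    countable_iUnion fun N => (E2_finite hd (by omega)).countable
  obtain ⟨c', hc', hc'E⟩ : ∃ c' ∈ (multibrotSet d)ᶜ ∩ ball c₁ ε, c' ∉ ⋃ N : ℕ, E2 d (N + 1) := by
    by_contra hcon
    push Not at hcon
    exact h4.ne' (measure_mono_null hcon (h5.measure_zero volume))
  refine ⟨c', ?_, ?_, ?_⟩
  · have := hc'.2
    rwa [mem_ball, dist_eq_norm] at this
  · by_contra h
    exact hc'.1 h
  · intro N hN h
    apply hc'E
    rw [mem_iUnion]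
    exact ⟨N - 1, by rwa [Nat.sub_add_cancel hN]⟩

theorem nat_le_pow {x : ℝ} (hx : 1 < x) (j : ℕ) : (j : ℝ) ≤ 1 / (x - 1) * x ^ j := by
  have h1 : 1 + (j : ℝ) * (x - 1) ≤ (1 + (x - 1)) ^ j :=
    one_add_mul_le_pow (by linarith) j
  rw [show 1 + (x - 1) = x by ring] at h1
  have h2 : 0 < x - 1 := by linarith
  rw [one_div, ← div_eq_inv_mul, le_div_iff₀ h2]
  linarith

/-- the bound for one domain, with losses -/
theorem dim_V2_aux (hd : 2 ≤ d) (hp : 1 ≤ p) {V : Set ℂ} (hVo : IsOpen V)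
    (hVb : Bornology.IsBounded V) {X X' D : ℝ} (hX' : 0 < X') (hXX' : X' < X) (hD : (d:ℝ) < D) :
    dimH {c | c ∈ frontier (multibrotSet d) ∧ Good d p V c ∧ Near2 d p X c} ≤
      ENNReal.ofReal (Real.log D / (p * X')) := by
  have hp0 : (0:ℝ) < p := by exact_mod_cast hp
  have hX : 0 < X := hX'.trans hXX'
  have hpX : 0 < (p:ℝ) * X' := by positivity
  have hdR : (1 : ℝ) < d := by exact_mod_cast (by omega : 1 < d)
  have hD1 : 1 < D := hdR.trans hD
  have hlogD : Real.log d ≤ Real.log D := Real.log_le_log (by linarith) hD.le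
  obtain ⟨A, hA⟩ : ∃ A : Set ℂ, A = {c | c ∈ frontier (multibrotSet d) ∧ Good d p V c ∧
      Near2 d p X c} := ⟨_, rfl⟩
  rw [← hA]
  apply le_of_forall_lt
  intro r hr
  obtain ⟨c₁, hc₁, h⟩ := exists_mem_nhdsWithin_lt_dimH_of_lt_dimH hr
  have hc₁' := hc₁
  rw [hA] at hc₁'
  obtain ⟨hfr₁, hg, _⟩ := hc₁'
  obtain ⟨δ, hδ, hfr⟩ := stab hVb hg.1
  obtain ⟨c', hc', hesc, hE2⟩ := exists_esc hd hfr₁ (show 0 < δ / 16 by positivity)
  obtain ⟨C, J, hcount⟩ := count2 hd hp hVo hVb hδ hfr hg.2.1 hc' hesc hE2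
  have h1 : ball c₁ (δ / 32) ∩ A ∈ 𝓝[A] c₁ :=
    inter_mem (mem_nhdsWithin_of_mem_nhds (ball_mem_nhds c₁ (by positivity))) self_mem_nhdsWithin
  refine (h _ h1).trans_le ?_
  obtain ⟨Zi, hZi⟩ : ∃ Zi : ℕ → ℕ → Set ℂ, Zi = fun i j => {c | c ∈ ball c₁ (δ / 16) ∧
      (∀ l < j, P d (p * l) c ∈ V) ∧ P d (p * j) c = P d (p * i) c} := ⟨_, rfl⟩
  obtain ⟨Z, hZ⟩ : ∃ Z : ℕ → Set ℂ, Z = fun j => ⋃ i ∈ Finset.range j, Zi i j := ⟨_, rfl⟩
  have hcountZ : ∀ j ≥ J, (Z j).Finite ∧
      ((Z j).ncard : ℝ) ≤ (max C 0 * (1 / (D / d - 1))) * D ^ j := by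
    intro j hj
    have hfin : ∀ i ∈ Finset.range j, (Zi i j).Finite := by
      intro i hi
      rw [hZi]
      exact (hcount i j (Finset.mem_range.1 hi) hj).1
    have hZf : (Z j).Finite := by
      rw [hZ]
      exact Set.Finite.biUnion (Finset.finite_toSet _) hfin
    refine ⟨hZf, ?_⟩
    have h2 : ((Z j).ncard : ℝ) ≤ ∑ i ∈ Finset.range j, ((Zi i j).ncard : ℝ) := by
      rw [hZ]
      exact_mod_cast Finset.set_ncard_biUnion_le (Finset.range j) fun i => Zi i j
    have h3 : ∑ i ∈ Finset.range j, ((Zi i j).ncard : ℝ) ≤ j * (max C 0 * (d : ℝ) ^ j) := by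
      calc ∑ i ∈ Finset.range j, ((Zi i j).ncard : ℝ)
          ≤ ∑ _i ∈ Finset.range j, max C 0 * (d : ℝ) ^ j := by
            apply Finset.sum_le_sum
            intro i hi
            have h4 := (hcount i j (Finset.mem_range.1 hi) hj).2
            rw [hZi]
            refine h4.trans ?_
            have := le_max_left C 0
            gcongr
        _ = _ := by rw [Finset.sum_const, Finset.card_range, nsmul_eq_mul]
    have hx : 1 < D / d := by rwa [one_lt_div (by linarith)]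
    have h4 := nat_le_pow hx j
    calc ((Z j).ncard : ℝ) ≤ j * (max C 0 * (d : ℝ) ^ j) := h2.trans h3
      _ ≤ (1 / (D / d - 1) * (D / d) ^ j) * (max C 0 * (d : ℝ) ^ j) := by
          have : 0 ≤ max C 0 * (d : ℝ) ^ j := by positivity
          gcongr
      _ = (max C 0 * (1 / (D / d - 1))) * D ^ j := by
          rw [div_pow]
          field_simp
  have hsub : ball c₁ (δ / 32) ∩ A ⊆ {c | Good d p V c ∧ Fast d p V (p * X') c} ∪
      {c₀ | ∃ᶠ j : ℕ in atTop, ∃ z ∈ Z j, ‖c₀ - z‖ ≤ 1 * Real.exp (-(p * X' * j))} := by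
    rintro c₀ ⟨hc₀, hc₀A⟩
    rw [hA] at hc₀A
    obtain ⟨_, hg₀, hnear⟩ := hc₀A
    by_cases hF : Fast d p V (p * X') c₀
    · exact Or.inl ⟨hg₀, hF⟩
    right
    unfold Fast at hF
    rw [not_frequently, eventually_atTop] at hF
    obtain ⟨N₀, hN₀⟩ := hF
    have hlim : Tendsto (fun n : ℕ => Real.exp (-(X * n))) atTop (𝓝 0) := by
      apply Real.tendsto_exp_neg_atTop_nhds_zero.comp
      exact Tendsto.const_mul_atTop hX tendsto_natCast_atTop_atTop
    have hsmall := hlim.eventually (gt_mem_nhds (show 0 < δ / 32 by positivity))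
    obtain ⟨N₁, hN₁⟩ := exists_nat_ge (X' * p / (X - X'))
    rw [mem_ofPred_eq, frequently_atTop]
    intro b
    obtain ⟨n, ⟨a, ⟨m, hmn, hdiv, hP⟩, ha2⟩, hn1, hn2, hn3⟩ := (hnear.and_eventually
      (hsmall.and ((eventually_ge_atTop (p * (b + N₀))).and (eventually_ge_atTop N₁)))).exists
    have hn1' : Real.exp (-(X * n)) < δ / 32 := hn1
    have hdm := Nat.div_add_mod n p
    have hmod : n % p < p := Nat.mod_lt n hp
    obtain ⟨j, hjdef⟩ : ∃ j, j = n / p + 1 := ⟨_, rfl⟩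
    have hjb : b + N₀ ≤ n / p := (Nat.le_div_iff_mul_le hp).2 (by rw [Nat.mul_comm]; exact hn2)
    have hpj : p * j = p * (n / p) + p := by rw [hjdef]; ring
    obtain ⟨q, hq⟩ := hdiv
    have hq1 : 1 ≤ q := by
      by_contra hcon
      have : q = 0 := by omega
      rw [this] at hq
      omega
    have hqj : q ≤ j := by
      by_contra hcon
      push Not at hcon
      have h3 : p * (j + 1) ≤ p * q := Nat.mul_le_mul_left p hcon
      have h4 : p * (j + 1) = p * j + p := by ring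
      omega
    have hexp : Real.exp (-(X * n)) ≤ Real.exp (-(p * X' * j)) := by
      apply Real.exp_le_exp.2
      have h3 : (p : ℝ) * j ≤ n + p := by
        have : p * j ≤ n + p := by omega
        exact_mod_cast this
      have h4 : X' * p / (X - X') ≤ n := hN₁.trans (by exact_mod_cast hn3)
      rw [div_le_iff₀ (by linarith)] at h4
      have h5 : (p : ℝ) * X' * j ≤ X' * (n + p) := by
        calc (p : ℝ) * X' * j = X' * (p * j) := by ring
          _ ≤ X' * (n + p) := by gcongr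
      nlinarith
    have htrap : ∀ i ≤ j, P d (p * i) a ∈ V := by
      intro i hi
      by_contra hcon
      apply hN₀ j (by omega)
      refine ⟨a, ?_, i, hi, hcon⟩
      rw [mem_closedBall, dist_eq_norm]
      exact ha2.trans hexp
    have hrel : P d (p * j) a = P d (p * (j - q)) a := by
      have e1 : p * j = (p * j - n) + n := by omega
      have e2 : p * (j - q) = (p * j - n) + m := by
        rw [Nat.mul_sub]
        have h3 : p * q ≤ p * j := Nat.mul_le_mul_left p hqj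
        omega
      rw [e2]
      conv_lhs => rw [e1]
      rw [← iter_P d (p * j - n) n, ← iter_P d (p * j - n) m, hP]
    refine ⟨j, by omega, a, ?_, ?_⟩
    · rw [hZ]
      simp only [mem_iUnion]
      refine ⟨j - q, Finset.mem_range.2 (by omega), ?_⟩
      rw [hZi]
      refine ⟨?_, fun i hi => htrap i hi.le, hrel⟩
      rw [mem_ball, dist_eq_norm] at hc₀ ⊢
      have h2 : a - c₁ = (a - c₀) + (c₀ - c₁) := by ring
      rw [h2]
      have := norm_add_le (a - c₀) (c₀ - c₁)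
      linarith
    · rw [one_mul, norm_sub_rev]
      exact ha2.trans hexp
  refine (dimH_mono hsub).trans ?_
  rw [dimH_union]
  refine max_le ?_ ?_
  · refine (dim_good lp jz qs dc seq hd hp hVo hVb hpX).trans ?_
    apply ENNReal.ofReal_le_ofReal
    gcongr
  · exact dc D (p * X') 1 _ J Z _ hD1 hpX hcountZ fun a ha => ha

/-- the bound for one domain -/
theorem dim_V2 (hd : 2 ≤ d) (hp : 1 ≤ p) {V : Set ℂ} (hVo : IsOpen V)
    (hVb : Bornology.IsBounded V) {X : ℝ} (hX : 0 < X) :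
    dimH {c | c ∈ frontier (multibrotSet d) ∧ Good d p V c ∧ Near2 d p X c} ≤
      ENNReal.ofReal (Real.log d / (p * X)) := by
  have hp0 : (0:ℝ) < p := by exact_mod_cast hp
  have hdR : (1 : ℝ) < d := by exact_mod_cast (by omega : 1 < d)
  have h1 : ∀ X' : ℝ, 0 < X' → X' < X →
      dimH {c | c ∈ frontier (multibrotSet d) ∧ Good d p V c ∧ Near2 d p X c} ≤
        ENNReal.ofReal (Real.log d / (p * X')) := by
    intro X' hX' hXX'
    have h2 : Tendsto (fun D : ℝ => ENNReal.ofReal (Real.log D / (p * X'))) (𝓝[>] (d:ℝ))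
        (𝓝 (ENNReal.ofReal (Real.log d / (p * X')))) := by
      apply ENNReal.tendsto_ofReal
      apply Tendsto.div_const
      exact (Real.continuousAt_log (by linarith)).tendsto.mono_left nhdsWithin_le_nhds
    apply ge_of_tendsto h2
    filter_upwards [self_mem_nhdsWithin] with D hD
    exact dim_V2_aux hd hp hVo hVb hX' hXX' hD
  have h2 : Tendsto (fun X' : ℝ => ENNReal.ofReal (Real.log d / (p * X'))) (𝓝[<] X)
      (𝓝 (ENNReal.ofReal (Real.log d / (p * X)))) := by
    apply ENNReal.tendsto_ofReal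
    exact (tendsto_const_nhds.div (tendsto_id.const_mul (p:ℝ)) (by positivity)).mono_left
      nhdsWithin_le_nhds
  apply ge_of_tendsto h2
  have h3 : ∀ᶠ X' : ℝ in 𝓝[<] X, 0 < X' := nhdsWithin_le_nhds (lt_mem_nhds hX)
  filter_upwards [h3, self_mem_nhdsWithin] with X' h4 h5
  exact h1 X' h4 h5

/-- **Renormalizable parameters close to postcritically finite ones.** -/
theorem dim_near2 (hd : 2 ≤ d) (hp : 1 ≤ p) {X : ℝ} (hX : 0 < X) :
    dimH {c | c ∈ frontier (multibrotSet d) ∧ Ren d c p ∧ Near2 d p X c} ≤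
      ENNReal.ofReal (Real.log d / (p * X)) := by
  have hsub : {c | c ∈ frontier (multibrotSet d) ∧ Ren d c p ∧ Near2 d p X c} ⊆
      ⋃ V ∈ {V : Set ℂ | V ∈ FamV ∧ Bornology.IsBounded V},
        {c | c ∈ frontier (multibrotSet d) ∧ Good d p V c ∧ Near2 d p X c} := by
    rintro c ⟨h1, h2, h3⟩
    obtain ⟨V, hV, _, hVb, hg⟩ := good_of_ren h2
    rw [mem_iUnion₂]
    exact ⟨V, ⟨hV, hVb⟩, h1, hg, h3⟩
  refine (dimH_mono hsub).trans ?_
  rw [dimH_bUnion (FamV_countable.mono fun V hV => hV.1)]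
  exact iSup₂_le fun V hV => dim_V2 hd hp (FamV_open hV.1) hV.2 hX

theorem Near2.mono {X X' : ℝ} (h : X' ≤ X) {c : ℂ} (hc : Near2 d p X c) : Near2 d p X' c := by
  refine Filter.Frequently.mono hc ?_
  rintro n ⟨a, h1, h2⟩
  refine ⟨a, h1, h2.trans ?_⟩
  apply Real.exp_le_exp.2
  have : (0:ℝ) ≤ n := Nat.cast_nonneg n
  nlinarith

end Pool.Agent.J4H70.ML
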