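import Pool.Agent.Y736.RN.B
import Pool.Agent.Y736.RN.QS
import Pool.Agent.H712R2.Par

set_option autoImplicit false

/-! # Postcritically finite parameters: inverse branches -/

namespace Pool.Agent.J4H70.ML

open Filter Topology Set Metric MeasureTheory Pool.Agent.H712R2
open Pool.Agent.Y736.RN

variable {d p : ℕ}

/-- a holomorphic root on a ball -/
theorem exists_root_ball (hd : 2 ≤ d) {g : ℂ → ℂ} {w : ℂ} {R : ℝ} (hR : 0 < R)
    (hg : DifferentiableOn ℂ g (ball w R)) (h0 : ∀ x ∈ ball w R, g x ≠ 0) :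
    ∃ h : ℂ → ℂ, DifferentiableOn ℂ h (ball w R) ∧ (∀ x ∈ ball w R, h x ^ d = g x) ∧
      ∀ x ∈ ball w R, h x ≠ 0 := by
  have hd0 : (d : ℂ) ≠ 0 := by exact_mod_cast (by omega : d ≠ 0)
  obtain ⟨l, hl1, hl2, hl3⟩ := Pool.Agent.H712R2.M.exists_log_ball hR hg h0
    (Complex.log (g w)) (Complex.exp_log (h0 w (mem_ball_self hR)))
  refine ⟨fun ζ => Complex.exp (l ζ / d), (hl1.div_const _).cexp, ?_, fun x _ => Complex.exp_ne_zero _⟩
  intro x hx
  rw [← Complex.exp_nat_mul, mul_div_cancel₀ _ hd0, hl3 x hx]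

/-- the inverse branch through a given point -/
theorem branch_at (hd : 2 ≤ d) {c : ℂ} {y : ℂ} {r : ℝ} (hr : 0 < r) (n : ℕ)
    (hno : ∀ k, 1 ≤ k → k ≤ n → P d k c ∉ ball y r) : ∀ x : ℂ, (fc d c)^[n] x = y →
    ∃ g : ℂ → ℂ, DifferentiableOn ℂ g (ball y r) ∧ (∀ v ∈ ball y r, (fc d c)^[n] (g v) = v) ∧
      g y = x := by
  induction n with
  | zero =>
    intro x hx
    exact ⟨fun v => v, differentiableOn_id, fun v _ => rfl, hx.symm⟩
  | succ n ih =>
    intro x hx
    rw [Function.iterate_succ_apply] at hx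
    obtain ⟨g, hg1, hg2, hg3⟩ := ih (fun k hk1 hk2 => hno k hk1 (by omega)) _ hx
    have hgc : ∀ v ∈ ball y r, g v ≠ c := by
      intro v hv hgv
      apply hno (n + 1) (by omega) le_rfl
      have := hg2 v hv
      rw [hgv, iter_c hd] at this
      rw [this]
      exact hv
    obtain ⟨h, hh1, hh2, hh3⟩ := exists_root_ball hd hr (hg1.sub_const c)
      (fun v hv => sub_ne_zero.mpr (hgc v hv))
    have hyb : y ∈ ball y r := mem_ball_self hr
    have h1 : h y ^ d = x ^ d := by
      rw [hh2 y hyb, hg3]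
      unfold fc
      ring
    have h0 := hh3 y hyb
    have hω : (x / h y) ^ d = 1 := by
      rw [div_pow, h1, div_self]
      rw [← h1]
      exact pow_ne_zero d h0
    refine ⟨fun v => (x / h y) * h v, hh1.const_mul _, ?_, ?_⟩
    · intro v hv
      beta_reduce
      rw [Function.iterate_succ_apply]
      have h2 : fc d c (x / h y * h v) = g v := by
        unfold fc
        rw [mul_pow, hω, one_mul, hh2 v hv]
        ring
      rw [h2, hg2 v hv]
    · beta_reduce
      field_simp

/-- an inverse branch has no zero of the derivative of the iterate -/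
theorem branch_deriv {c : ℂ} {D : Set ℂ} (hD : IsOpen D) {n : ℕ} {g : ℂ → ℂ}
    (hg : DifferentiableOn ℂ g D) (hgm : ∀ x ∈ D, (fc d c)^[n] (g x) = x) {x : ℂ} (hx : x ∈ D) :
    deriv ((fc d c)^[n]) (g x) * deriv g x = 1 := by
  have h1 : HasDerivAt g (deriv g x) x := (hg.differentiableAt (hD.mem_nhds hx)).hasDerivAt
  have h2 := ((diff_it_y d n c) (g x)).hasDerivAt.comp x h1
  have h3 : ((fc d c)^[n] ∘ g) =ᶠ[𝓝 x] id := by
    filter_upwards [hD.mem_nhds hx] with y hy
    exact hgm y hy
  exact (h2.congr_of_eventuallyEq h3.symm).unique (hasDerivAt_id x)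

/-- uniqueness of inverse branches -/
theorem branch_unique {c : ℂ} {D : Set ℂ} (hD : IsOpen D) (hDc : IsPreconnected D) {n : ℕ}
    {g g' : ℂ → ℂ} (hg : DifferentiableOn ℂ g D) (hgm : ∀ x ∈ D, (fc d c)^[n] (g x) = x)
    (hg' : DifferentiableOn ℂ g' D) (hgm' : ∀ x ∈ D, (fc d c)^[n] (g' x) = x)
    {w : ℂ} (hw : w ∈ D) (hww : g w = g' w) : EqOn g g' D := by
  have ha : AnalyticOnNhd ℂ g D := hg.analyticOnNhd hD
  have ha' : AnalyticOnNhd ℂ g' D := hg'.analyticOnNhd hD
  refine ha.eqOn_of_preconnected_of_eventuallyEq ha' hDc hw ?_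
  -- the iterate is locally injective at `g w`
  have hder : deriv ((fc d c)^[n]) (g w) ≠ 0 := by
    intro h
    have := branch_deriv hD hg hgm hw
    rw [h, zero_mul] at this
    exact zero_ne_one this
  have hstrict : HasStrictDerivAt ((fc d c)^[n]) (deriv ((fc d c)^[n]) (g w)) (g w) := by
    have h1 : ContDiffAt ℂ 1 ((fc d c)^[n]) (g w) := (diff_it_y d n c).contDiff.contDiffAt
    exact h1.hasStrictDerivAt (by norm_num)
  have h1 := hstrict.eventually_left_inverse hder
  have hgc : ContinuousAt g w := (hg.differentiableAt (hD.mem_nhds hw)).continuousAt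
  have hgc' : ContinuousAt g' w := (hg'.differentiableAt (hD.mem_nhds hw)).continuousAt
  have h2 := hgc.eventually h1
  have hgt : Tendsto g' (𝓝 w) (𝓝 (g w)) := by
    rw [hww]
    exact hgc'
  have h3 := hgt.eventually h1
  filter_upwards [h2, h3, hD.mem_nhds hw] with x hx1 hx2 hx3
  rw [← hx1, ← hx2, hgm x hx3, hgm' x hx3]

/-- the points trapped forever -/
def Tr (d p : ℕ) (V : Set ℂ) (c : ℂ) : Set ℂ := {z | ∀ l, (fc d c)^[p * l] z ∈ V}

theorem Tr_compact {V : Set ℂ} (hVo : IsOpen V) (hVb : Bornology.IsBounded V) {c : ℂ}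
    (hfr : ∀ z ∈ frontier V, (fc d c)^[p] z ∉ closure V) : IsCompact (Tr d p V c) := by
  have h : Tr d p V c = ⋂ l, ((fc d c)^[p * l]) ⁻¹' closure V := by
    ext z
    simp only [Tr, mem_ofPred_eq, mem_iInter, mem_preimage]
    constructor
    · intro h l
      exact subset_closure (h l)
    · intro h l
      by_contra hcon
      have hf : (fc d c)^[p * l] z ∈ frontier V := by
        rw [hVo.frontier_eq]
        exact ⟨h l, hcon⟩
      apply hfr _ hf
      rw [← Function.iterate_add_apply, show p + p * l = p * (l + 1) by ring]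
      exact h (l + 1)
  apply Metric.isCompact_of_isClosed_isBounded
  · rw [h]
    exact isClosed_iInter fun l => isClosed_closure.preimage (cont_it_y d (p * l) c)
  · apply hVb.subset
    intro z hz
    simpa using hz 0

/-- the postcritical points outside the connectedness locus avoid the trapped points -/
theorem margin (hp : 1 ≤ p) {V : Set ℂ} (hVo : IsOpen V) (hVb : Bornology.IsBounded V)
    {c : ℂ} (hfr : ∀ z ∈ frontier V, (fc d c)^[p] z ∉ closure V)
    (hc : Tendsto (fun k => P d k c) atTop (Bornology.cobounded ℂ)) :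
    ∃ r : ℝ, 0 < r ∧ ∀ x ∈ Tr d p V c, ball x (5 * r) ⊆ V ∧
      ∀ k, P d k c ∉ ball x (5 * r) := by
  have hcl : IsClosed (range fun k => P d k c) := by
    have h1 : LocallyFinite fun k : ℕ => ({P d k c} : Set ℂ) := by
      intro x
      refine ⟨ball x 1, ball_mem_nhds x one_pos, ?_⟩
      have h2 : ∀ᶠ k in atTop, P d k c ∉ ball x 1 :=
        hc.eventually (Bornology.isBounded_def.1 isBounded_ball)
      obtain ⟨N, hN⟩ := eventually_atTop.1 h2
      refine (Set.finite_Iio N).subset ?_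
      rintro k ⟨y, hy1, hy2⟩
      by_contra hcon
      have hk : N ≤ k := not_lt.1 hcon
      apply hN k hk
      rw [mem_singleton_iff] at hy1
      rw [← hy1]
      exact hy2
    have h2 : (range fun k => P d k c) = ⋃ k, {P d k c} := by
      ext z; simp [eq_comm]
    rw [h2]
    exact h1.isClosed_iUnion fun k => isClosed_singleton
  have hdis : Tr d p V c ⊆ V ∩ (range fun k => P d k c)ᶜ := by
    intro x hx
    refine ⟨by simpa using hx 0, ?_⟩
    rintro ⟨k, hk⟩
    have h1 : Tendsto (fun l : ℕ => p * l + k) atTop atTop :=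
      tendsto_atTop_mono (fun l => (Nat.le_mul_of_pos_left l hp).trans (Nat.le_add_right _ _))
        tendsto_id
    have h2 := (hc.comp h1).eventually (Bornology.isBounded_def.1 hVb)
    obtain ⟨l, hl⟩ := h2.exists
    apply hl
    have h3 := hx l
    rw [← hk] at h3
    show P d (p * l + k) c ∈ V
    unfold P at h3 ⊢
    rwa [← Function.iterate_add_apply] at h3
  obtain ⟨ε, hε, hth⟩ := (Tr_compact hVo hVb hfr).exists_thickening_subset_open
    (hVo.inter hcl.isOpen_compl) hdis
  refine ⟨ε / 5, by positivity, fun x hx => ?_⟩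
  have h5 : 5 * (ε / 5) = ε := by ring
  rw [h5]
  have hsub : ball x ε ⊆ V ∩ (range fun k => P d k c)ᶜ :=
    (ball_subset_thickening hx ε).trans hth
  refine ⟨fun y hy => (hsub hy).1, fun k hk => (hsub hk).2 ⟨k, rfl⟩⟩

/-- branches stay trapped -/
theorem branch_trapped {V : Set ℂ} (hVo : IsOpen V) {c : ℂ}
    (hfr : ∀ z ∈ frontier V, (fc d c)^[p] z ∉ closure V) {D : Set ℂ} (hDc : IsPreconnected D)
    (hDV : D ⊆ V) {j : ℕ} {g : ℂ → ℂ} (hg : ContinuousOn g D)
    (hgm : ∀ x ∈ D, (fc d c)^[p * j] (g x) = x) {x : ℂ} (hx : x ∈ D)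
    (htr : ∀ l < j, (fc d c)^[p * l] (g x) ∈ V) :
    ∀ w ∈ D, ∀ l < j, (fc d c)^[p * l] (g w) ∈ V := by
  -- the good set is clopen in `D`
  obtain ⟨A, hA⟩ : ∃ A : Set ℂ, A = {z | ∀ l < j, (fc d c)^[p * l] z ∈ V} := ⟨_, rfl⟩
  obtain ⟨B, hB⟩ : ∃ B : Set ℂ, B = {z | ∀ l < j, (fc d c)^[p * l] z ∈ closure V} := ⟨_, rfl⟩
  have hAo : IsOpen A := by
    have h : A = ⋂ l ∈ Finset.range j, ((fc d c)^[p * l]) ⁻¹' V := by
      rw [hA]
      ext z
      simp
    rw [h]
    exact isOpen_biInter_finset fun l _ => hVo.preimage (cont_it_y d (p * l) c)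
  have hBc : IsClosed B := by
    have h : B = ⋂ l ∈ Finset.range j, ((fc d c)^[p * l]) ⁻¹' closure V := by
      rw [hB]
      ext z
      simp
    rw [h]
    exact isClosed_biInter fun l _ => isClosed_closure.preimage (cont_it_y d (p * l) c)
  have hAB : ∀ w ∈ D, g w ∈ B → g w ∈ A := by
    intro w hw hgB
    rw [hA]
    intro l hl
    by_contra hcon
    rw [hB] at hgB
    have hf : (fc d c)^[p * l] (g w) ∈ frontier V := by
      rw [hVo.frontier_eq]
      exact ⟨hgB l hl, hcon⟩
    apply hfr _ hf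
    rw [← Function.iterate_add_apply, show p + p * l = p * (l + 1) by ring]
    rcases Nat.lt_or_ge (l + 1) j with h1 | h1
    · exact hgB (l + 1) h1
    · rw [show l + 1 = j by omega, hgm w hw]
      exact subset_closure (hDV hw)
  have hsub : D ⊆ g ⁻¹' A := by
    have himg : IsPreconnected (g '' D) := hDc.image g hg
    have h1 : g '' D ⊆ A := by
      apply himg.subset_of_closure_inter_subset hAo ⟨g x, mem_image_of_mem g hx, ?_⟩
      · rintro z ⟨hz1, hz2⟩
        obtain ⟨w, hw, rfl⟩ := hz2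
        apply hAB w hw
        have h2 : A ⊆ B := by
          rw [hA, hB]
          exact fun z hz l hl => subset_closure (hz l hl)
        exact closure_minimal h2 hBc hz1
      · rw [hA]
        exact htr
    intro w hw
    exact h1 (mem_image_of_mem g hw)
  intro w hw
  have := hsub hw
  rw [hA] at this
  exact this

end Pool.Agent.J4H70.ML
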