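import Pool.Agent.J4H70.ML.A
import Pool.Agent.H400R3.HI.Open

set_option autoImplicit false

/-! # Postcritically finite parameters: escaping parameters, contraction -/

namespace Pool.Agent.J4H70.ML

open Filter Topology Set Metric MeasureTheory Pool.Agent.H712R2
open Pool.Agent.Y736.RN
open Pool.Agent.H400R3.HI (Gd empty_int)

variable {d p : ℕ}

/-- outside the connectedness locus the escaping points are dense -/
theorem esc_dense (hd : 2 ≤ d) {c : ℂ}
    (hc : Tendsto (fun k => P d k c) atTop (Bornology.cobounded ℂ)) (x : ℂ) {s : ℝ} (hs : 0 < s) :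
    ∃ y ∈ ball x s, Tendsto (fun k : ℕ => ‖(fc d c)^[k] y‖) atTop atTop := by
  by_contra hcon
  push Not at hcon
  have hG : Differentiable ℂ (fc d c) := by
    have := diff_it_y d 1 c
    rwa [Function.iterate_one] at this
  have hder : ∀ w, deriv (fc d c) w = 0 → w = 0 := by
    intro w hw
    have h4 : HasDerivAt (fc d c) ((d : ℂ) * w ^ (d - 1)) w := by
      have := (hasDerivAt_pow d w).add_const c
      exact this
    rw [h4.deriv, mul_eq_zero] at hw
    rcases hw with h | h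
    · have : (d : ℂ) ≠ 0 := by exact_mod_cast (by omega : d ≠ 0)
      exact absurd h this
    · exact eq_zero_of_pow_eq_zero h
  refine empty_int (G := fc d c) (A := ∅) (P := 1) (R := 3 + ‖c‖) hG (by positivity) ?_
    Set.finite_empty one_pos (by simp) (by simp) ?_ ?_ (by simp) (x₀ := x) (r₀ := s) hs ?_
  · intro w hw
    have h0 := norm_nonneg c
    have h1 : ‖w ^ d‖ - ‖c‖ ≤ ‖w ^ d + c‖ := by
      have := norm_sub_norm_le (w ^ d) (-c)
      rwa [norm_neg, sub_neg_eq_add] at this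
    have h2 : ‖w‖ ^ 2 ≤ ‖w ^ d‖ := by
      rw [norm_pow]
      exact pow_le_pow_right₀ (by linarith) hd
    show 2 * ‖w‖ ≤ ‖w ^ d + c‖
    nlinarith
  · exact (Set.finite_singleton (0 : ℂ)).subset fun w hw => hder w hw
  · intro w hw
    rw [hder w hw]
    left
    exact tendsto_norm_cobounded_atTop.comp hc
  · intro w hw hgd
    rcases hgd with h | ⟨a, ha, _⟩
    · exact hcon w hw h
    · exact ha

/-- every disc of a given size leaves the domain within a given time -/
theorem exists_exit (hd : 2 ≤ d) (hp : 1 ≤ p) {V : Set ℂ} (hVb : Bornology.IsBounded V) {c : ℂ}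
    (hc : Tendsto (fun k => P d k c) atTop (Bornology.cobounded ℂ)) {δ : ℝ} (hδ : 0 < δ) :
    ∃ k₀ : ℕ, ∀ z ∈ V, ∃ y ∈ ball z δ, ∃ l < k₀, (fc d c)^[p * l] y ∉ V := by
  have hVc : IsCompact (closure V) :=
    Metric.isCompact_of_isClosed_isBounded isClosed_closure hVb.closure
  obtain ⟨t, -, htfin, htcov⟩ :=
    Metric.finite_approx_of_totallyBounded hVc.totallyBounded (δ / 2) (by positivity)
  have h1 : ∀ x : ℂ, ∃ y ∈ ball x (δ / 2), ∃ l : ℕ, (fc d c)^[p * l] y ∉ V := by
    intro x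
    obtain ⟨y, hy, hesc⟩ := esc_dense hd hc x (half_pos hδ)
    refine ⟨y, hy, ?_⟩
    obtain ⟨R, hR⟩ := hVb.exists_norm_le
    have h2 : Tendsto (fun l : ℕ => p * l) atTop atTop :=
      tendsto_atTop_mono (fun l => Nat.le_mul_of_pos_left l hp) tendsto_id
    obtain ⟨l, hl⟩ := ((hesc.comp h2).eventually_gt_atTop R).exists
    refine ⟨l, fun hV => ?_⟩
    have h3 := hR _ hV
    simp only [Function.comp] at hl
    linarith
  choose y hy l hl using h1
  refine ⟨(htfin.toFinset.sup l) + 1, fun z hz => ?_⟩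
  obtain ⟨x, hx, hzx⟩ := mem_iUnion₂.1 (htcov (subset_closure hz))
  refine ⟨y x, ?_, l x, ?_, hl x⟩
  · have h2 := hy x
    rw [mem_ball] at h2 hzx ⊢
    have := dist_triangle_right (y x) z x
    linarith
  · have : l x ≤ htfin.toFinset.sup l := Finset.le_sup (f := l) (htfin.mem_toFinset.2 hx)
    omega

/-- **Contraction.** Long trapped inverse branches which fix a point are unique. -/
theorem contraction (hd : 2 ≤ d) (hp : 1 ≤ p) {V : Set ℂ} (hVb : Bornology.IsBounded V) {c : ℂ}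
    (hc : Tendsto (fun k => P d k c) atTop (Bornology.cobounded ℂ)) {r : ℝ} (hr : 0 < r) :
    ∃ k₀ : ℕ, ∀ (x₀ : ℂ) (k : ℕ) (g : ℂ → ℂ), k₀ ≤ k → DifferentiableOn ℂ g (ball x₀ (4 * r)) →
      (∀ w ∈ ball x₀ (4 * r), ∀ l < k, (fc d c)^[p * l] (g w) ∈ V) →
      ∀ x ∈ ball x₀ r, ∀ x' ∈ ball x₀ r, g x = x → g x' = x' → x = x' := by
  obtain ⟨R₀, hR₀⟩ := hVb.exists_norm_le
  obtain ⟨R, hR⟩ : ∃ R, R = max R₀ 1 := ⟨_, rfl⟩
  have hRpos : 0 < R := by rw [hR]; exact lt_of_lt_of_le one_pos (le_max_right _ _)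
  have hVR : ∀ y ∈ V, ‖y‖ ≤ R := fun y hy => (hR₀ y hy).trans (by rw [hR]; exact le_max_left _ _)
  obtain ⟨δ₂, hδ₂, hsurj⟩ := qs R (r / 8) hRpos (by positivity)
  obtain ⟨k₀, hk₀⟩ := exists_exit hd hp hVb hc hδ₂
  refine ⟨k₀ + 1, fun x₀ k g hk hg htr x hx x' hx' hgx hgx' => ?_⟩
  have hgV : ∀ w ∈ ball x₀ (4 * r), g w ∈ V := by
    intro w hw
    simpa using htr w hw 0 (by omega)
  have h22 : ball x₀ (2 * (2 * r)) = ball x₀ (4 * r) := by
    congr 1
    ring
  -- small oscillation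
  have hosc : ∀ w ∈ closedBall x₀ (2 * r), ‖g w - g x₀‖ < r / 8 := by
    intro w hw
    by_contra hcon
    push Not at hcon
    have h1 := hsurj g x₀ (2 * r) (by positivity) (by rw [h22]; exact hg)
      (fun w hw => hVR _ (hgV w (by rwa [h22] at hw))) ⟨w, hw, hcon⟩
    obtain ⟨y, hy, l, hl, hyV⟩ := hk₀ (g x₀) (hgV x₀ (mem_ball_self (by positivity)))
    rw [mem_ball, dist_eq_norm] at hy
    obtain ⟨v, hv, rfl⟩ := h1 y hy
    rw [h22] at hv
    exact hyV (htr v hv l (by omega))
  have hsub : ball x₀ r ⊆ closedBall x₀ (2 * r) :=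
    (ball_subset_ball (by linarith)).trans ball_subset_closedBall
  have hsub2 : ball x r ⊆ closedBall x₀ (2 * r) := by
    intro y hy
    rw [mem_ball] at hy hx
    rw [mem_closedBall]
    have := dist_triangle y x x₀
    linarith
  have hd1 : ∀ w ∈ closedBall x₀ (2 * r), dist (g w) (g x) < r / 4 := by
    intro w hw
    have h1 := hosc w hw
    have h2 := hosc x (hsub hx)
    rw [dist_eq_norm]
    have h3 : g w - g x = (g w - g x₀) - (g x - g x₀) := by ring
    rw [h3]
    have := norm_sub_le (g w - g x₀) (g x - g x₀)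
    linarith
  have hxx' : x' ∈ ball x r := by
    have := hd1 x' (hsub hx')
    rw [hgx, hgx'] at this
    rw [mem_ball]
    linarith
  have hschwarz := Complex.dist_le_div_mul_dist_of_mapsTo_ball (f := g) (c := x) (R₁ := r)
    (R₂ := r / 4) (z := x') (hg.mono (hsub2.trans (closedBall_subset_ball (by linarith))))
    (fun w hw => (hd1 w (hsub2 hw)).le) hxx'
  rw [hgx, hgx'] at hschwarz
  have h5 : r / 4 / r = 1 / 4 := by field_simp
  rw [h5] at hschwarz
  have h6 : dist x' x = 0 := by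
    have := dist_nonneg (x := x') (y := x)
    linarith
  exact (dist_eq_zero.1 h6).symm

end Pool.Agent.J4H70.ML
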