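import Pool.Agent.J4H70.ML.B

set_option autoImplicit false

/-! # Postcritically finite parameters: counting in the dynamical plane -/

namespace Pool.Agent.J4H70.ML

open Filter Topology Set Metric MeasureTheory Pool.Agent.H712R2
open Pool.Agent.Y736.RN

variable {d p : ℕ}

/-- the iterates as polynomials -/
noncomputable def ip (d N : ℕ) (c : ℂ) : Polynomial ℂ :=
  (Polynomial.X ^ d + Polynomial.C c).comp^[N] Polynomial.X

theorem ip_eval (d N : ℕ) (c x : ℂ) : (ip d N c).eval x = (fc d c)^[N] x := by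
  unfold ip
  rw [Polynomial.iterate_comp_eval, Polynomial.eval_X]
  congr 1
  funext z
  simp [fc]

theorem ip_natDegree (hd : 2 ≤ d) (N : ℕ) (c : ℂ) : (ip d N c).natDegree = d ^ N := by
  unfold ip
  rw [Polynomial.natDegree_iterate_comp, Polynomial.natDegree_X_pow_add_C, Polynomial.natDegree_X,
    mul_one]

/-- coincidences of iterates are finite in number -/
theorem coin_finite (hd : 2 ≤ d) (c : ℂ) {M N : ℕ} (h : M < N) :
    {x : ℂ | (fc d c)^[N] x = (fc d c)^[M] x}.Finite := by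
  have h1 : ip d N c - ip d M c ≠ 0 := by
    intro h0
    have h2 := congrArg Polynomial.natDegree (sub_eq_zero.1 h0)
    rw [ip_natDegree hd, ip_natDegree hd] at h2
    have := Nat.pow_lt_pow_right (show 1 < d by omega) h
    omega
  refine (Finset.finite_toSet (ip d N c - ip d M c).roots.toFinset).subset ?_
  intro x hx
  rw [Finset.mem_coe, Multiset.mem_toFinset, Polynomial.mem_roots h1, Polynomial.IsRoot.def,
    Polynomial.eval_sub, ip_eval, ip_eval, sub_eq_zero]
  exact hx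

/-- the trapped points with a return relation -/
def SS (d p : ℕ) (V : Set ℂ) (i j : ℕ) (c : ℂ) : Set ℂ :=
  {y | (∀ l < j, (fc d c)^[p * l] y ∈ V) ∧ (fc d c)^[p * j] y = (fc d c)^[p * i] y}

theorem SS_trapped {V : Set ℂ} {i j : ℕ} (hij : i < j) {c y : ℂ} (hy : y ∈ SS d p V i j c) :
    ∀ n, (fc d c)^[p * n] y ∈ V := by
  intro n
  induction n using Nat.strong_induction_on with
  | _ n ih =>
    rcases Nat.lt_or_ge n j with h | h
    · exact hy.1 n h
    · have h1 : (fc d c)^[p * n] y = (fc d c)^[p * (n - j + i)] y := by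
        have e1 : p * n = p * (n - j) + p * j := by
          rw [← Nat.mul_add]
          congr 1
          omega
        rw [e1, Function.iterate_add_apply, hy.2, ← Function.iterate_add_apply, ← Nat.mul_add]
      rw [h1]
      exact ih _ (by omega)

theorem SS_Tr {V : Set ℂ} {i j : ℕ} (hij : i < j) {c y : ℂ} (hy : y ∈ SS d p V i j c) :
    (fc d c)^[p * j] y ∈ Tr d p V c := by
  intro l
  rw [← Function.iterate_add_apply, ← Nat.mul_add]
  exact SS_trapped hij hy _

/-- the branch through a point with a return relation -/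
theorem exists_branch (hd : 2 ≤ d) (hp : 1 ≤ p) {V : Set ℂ} (hVo : IsOpen V) {c : ℂ}
    (hfr : ∀ z ∈ frontier V, (fc d c)^[p] z ∉ closure V) {r : ℝ} (hr : 0 < r)
    (hmar : ∀ x ∈ Tr d p V c, ball x (5 * r) ⊆ V ∧ ∀ k, P d k c ∉ ball x (5 * r))
    {t : Set ℂ} (htT : t ⊆ Tr d p V c) (htc : Tr d p V c ⊆ ⋃ x ∈ t, ball x r)
    {i j : ℕ} (hij : i < j) {y : ℂ} (hy : y ∈ SS d p V i j c) :
    ∃ m ∈ t, (fc d c)^[p * j] y ∈ ball m r ∧ ∃ g : ℂ → ℂ, DifferentiableOn ℂ g (ball m (4 * r)) ∧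
      (∀ v ∈ ball m (4 * r), (fc d c)^[p * j] (g v) = v) ∧ g ((fc d c)^[p * j] y) = y ∧
      ∀ v ∈ ball m (4 * r), ∀ l < j, (fc d c)^[p * l] (g v) ∈ V := by
  have hX := SS_Tr hij hy
  obtain ⟨m, hm, hXm⟩ := mem_iUnion₂.1 (htc hX)
  obtain ⟨x, hx⟩ : ∃ x, x = (fc d c)^[p * j] y := ⟨_, rfl⟩
  rw [← hx] at hX hXm ⊢
  obtain ⟨g, hg1, hg2, hg3⟩ := branch_at hd (c := c) (y := x) (r := 5 * r) (by positivity) (p * j)
    (fun k _ _ => (hmar x hX).2 k) y hx.symm
  have hsub : ball m (4 * r) ⊆ ball x (5 * r) := by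
    apply ball_subset_ball'
    rw [mem_ball, dist_comm] at hXm
    linarith
  have hxD : x ∈ ball m (4 * r) := ball_subset_ball (by linarith) hXm
  refine ⟨m, hm, hXm, g, hg1.mono hsub, fun v hv => hg2 v (hsub hv), hg3, ?_⟩
  apply branch_trapped hVo hfr (convex_ball m (4 * r)).isPreconnected
    (hsub.trans (hmar x hX).1) (hg1.mono hsub).continuousOn (fun v hv => hg2 v (hsub hv)) hxD
  intro l hl
  rw [hg3]
  exact hy.1 l hl

/-- **Counting in the dynamical plane.** -/
theorem count_dyn (hd : 2 ≤ d) (hp : 1 ≤ p) {V : Set ℂ} (hVo : IsOpen V)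
    (hVb : Bornology.IsBounded V) {c : ℂ}
    (hfr : ∀ z ∈ frontier V, (fc d c)^[p] z ∉ closure V)
    (hc : Tendsto (fun k => P d k c) atTop (Bornology.cobounded ℂ)) {B : Set ℂ}
    (hB : volume B = 0) (htar : ∀ w ∈ V, w ∉ B → ∀ j, 1 ≤ j →
      (YY d p V w j c).Finite ∧ (YY d p V w j c).ncard ≤ d ^ j) :
    ∃ C : ℕ, ∀ i j, i < j → (SS d p V i j c).Finite ∧ (SS d p V i j c).ncard ≤ C * d ^ j := by
  classical
  obtain ⟨r, hr, hmar⟩ := margin hp hVo hVb hfr hc
  obtain ⟨k₀, hcon⟩ := contraction hd hp hVb hc hr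
  obtain ⟨t, htT, htfin, htc⟩ := (Tr_compact hVo hVb hfr).finite_cover_balls hr
  -- generic targets
  have hw : ∀ x ∈ t, ∃ w ∈ ball x r, w ∉ B := by
    intro x _
    by_contra hno
    push Not at hno
    have h1 : volume (ball x r) = 0 := measure_mono_null hno hB
    exact (measure_ball_pos volume x hr).ne' h1
  choose! w hwx hwB using hw
  -- the fixed points of small order
  obtain ⟨Fx, hFx⟩ : ∃ Fx : Set ℂ, Fx = insert 0 (⋃ k ∈ Finset.Ico 1 k₀,
    {x : ℂ | (fc d c)^[p * k] x = x}) := ⟨_, rfl⟩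
  have hFxfin : Fx.Finite := by
    rw [hFx]
    apply Set.Finite.insert
    apply Set.Finite.biUnion (Finset.finite_toSet _)
    intro k hk
    have hk1 : 1 ≤ k := (Finset.mem_Ico.1 hk).1
    have := coin_finite hd c (M := 0) (N := p * k) (Nat.mul_pos hp hk1)
    simpa using this
  refine ⟨t.ncard * t.ncard * Fx.ncard, fun i j hij => ?_⟩
  have hj : 1 ≤ j := by omega
  -- the branches
  have hbr := fun y (hy : y ∈ SS d p V i j c) =>
    exists_branch hd hp hVo hfr hr hmar htT htc hij hy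
  choose! m hm hXm g hg1 hg2 hg3 hg4 using hbr
  obtain ⟨Φ, hΦ⟩ : ∃ Φ : ℂ → (ℂ × ℂ) × ℂ, Φ = fun y =>
    ((m y, g y (w (m y))), if k₀ ≤ j - i then 0 else (fc d c)^[p * j] y) := ⟨_, rfl⟩
  obtain ⟨Y, hY⟩ : ∃ Y : Finset ℂ, Y = htfin.toFinset.biUnion fun x =>
    if h : (YY d p V (w x) j c).Finite then h.toFinset else ∅ := ⟨_, rfl⟩
  have htar' : ∀ x ∈ t, (YY d p V (w x) j c).Finite ∧ (YY d p V (w x) j c).ncard ≤ d ^ j := by
    intro x hx
    apply htar _ _ (hwB x hx) j hj
    exact (hmar x (htT hx)).1 (ball_subset_ball (by linarith) (hwx x hx))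
  have hYc : Y.card ≤ t.ncard * d ^ j := by
    rw [hY, Set.ncard_eq_toFinset_card _ htfin]
    apply Finset.card_biUnion_le_card_mul
    intro x hx
    rw [Set.Finite.mem_toFinset] at hx
    obtain ⟨h1, h2⟩ := htar' x hx
    rw [dif_pos h1, ← Set.ncard_eq_toFinset_card _ h1]
    exact h2
  have hmaps : MapsTo Φ (SS d p V i j c) ((t ×ˢ (Y : Set ℂ)) ×ˢ Fx) := by
    intro y hy
    rw [hΦ]
    have hwD : w (m y) ∈ ball (m y) (4 * r) :=
      ball_subset_ball (by linarith) (hwx _ (hm y hy))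
    refine ⟨⟨hm y hy, ?_⟩, ?_⟩
    · rw [Finset.mem_coe, hY, Finset.mem_biUnion]
      refine ⟨m y, htfin.mem_toFinset.2 (hm y hy), ?_⟩
      obtain ⟨h1, -⟩ := htar' (m y) (hm y hy)
      rw [dif_pos h1, Set.Finite.mem_toFinset]
      exact ⟨fun l hl => hg4 y hy _ hwD l hl, hg2 y hy _ hwD⟩
    · show (if k₀ ≤ j - i then 0 else (fc d c)^[p * j] y) ∈ Fx
      rw [hFx]
      split_ifs with h
      · exact mem_insert _ _
      · right
        simp only [mem_iUnion]
        refine ⟨j - i, Finset.mem_Ico.2 ⟨by omega, by omega⟩, ?_⟩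
        show (fc d c)^[p * (j - i)] ((fc d c)^[p * j] y) = (fc d c)^[p * j] y
        conv_lhs => rw [hy.2]
        rw [← Function.iterate_add_apply, ← Nat.mul_add, show j - i + i = j by omega]
  have hinj : InjOn Φ (SS d p V i j c) := by
    intro y hy y' hy' h
    rw [hΦ] at h
    simp only [Prod.mk.injEq] at h
    obtain ⟨⟨h1, h2⟩, h3⟩ := h
    have hwD : w (m y) ∈ ball (m y) (4 * r) :=
      ball_subset_ball (by linarith) (hwx _ (hm y hy))
    have hEq : EqOn (g y) (g y') (ball (m y) (4 * r)) := by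
      refine branch_unique isOpen_ball (convex_ball _ _).isPreconnected (hg1 y hy) (hg2 y hy)
        ?_ ?_ hwD ?_
      · rw [h1]; exact hg1 y' hy'
      · rw [h1]; exact hg2 y' hy'
      · rw [h2, h1]
    have hX : (fc d c)^[p * j] y ∈ ball (m y) r := hXm y hy
    have hX' : (fc d c)^[p * j] y' ∈ ball (m y) r := by rw [h1]; exact hXm y' hy'
    have h4r : ball (m y) r ⊆ ball (m y) (4 * r) := ball_subset_ball (by linarith)
    have hXX : (fc d c)^[p * j] y = (fc d c)^[p * j] y' := by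
      by_cases hk : k₀ ≤ j - i
      · apply hcon (m y) (j - i) (fun v => (fc d c)^[p * i] (g y v)) hk
        · exact (diff_it_y d (p * i) c).comp_differentiableOn (hg1 y hy)
        · intro v hv l hl
          rw [← Function.iterate_add_apply, ← Nat.mul_add]
          exact hg4 y hy v hv _ (by omega)
        · exact hX
        · exact hX'
        · beta_reduce
          rw [hg3 y hy]
          exact hy.2.symm
        · beta_reduce
          rw [hEq (h4r hX'), hg3 y' hy']
          exact hy'.2.symm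
      · rw [if_neg hk, if_neg hk] at h3
        exact h3
    calc y = g y ((fc d c)^[p * j] y) := (hg3 y hy).symm
      _ = g y ((fc d c)^[p * j] y') := by rw [hXX]
      _ = g y' ((fc d c)^[p * j] y') := hEq (h4r hX')
      _ = y' := hg3 y' hy'
  have hTfin : ((t ×ˢ (Y : Set ℂ)) ×ˢ Fx).Finite := (htfin.prod Y.finite_toSet).prod hFxfin
  refine ⟨Set.Finite.of_injOn hmaps hinj hTfin, ?_⟩
  refine (Set.ncard_le_ncard_of_injOn Φ hmaps hinj hTfin).trans ?_
  rw [Set.ncard_prod, Set.ncard_prod, Set.ncard_coe_finset]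
  calc t.ncard * Y.card * Fx.ncard ≤ t.ncard * (t.ncard * d ^ j) * Fx.ncard := by gcongr
    _ = t.ncard * t.ncard * Fx.ncard * d ^ j := by ring

end Pool.Agent.J4H70.ML
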