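import Pool.Agent.J4H70.ML.C
import Pool.Agent.Y736.RN.C

set_option autoImplicit false

/-! # Postcritically finite parameters: exceptional parameters -/

namespace Pool.Agent.J4H70.ML

open Filter Topology Set Metric MeasureTheory Pool.Agent.H712R2
open Pool.Agent.Y736.RN

variable {d p : ℕ}

/-- the critical orbit of the parameter one -/
theorem P_one_real (hd : 2 ≤ d) (m : ℕ) : ∃ u : ℝ, (m : ℝ) ≤ u ∧ P d m 1 = (u : ℂ) ∧
    ∃ v : ℝ, P d (m + 1) 1 = (v : ℂ) ∧ u < v := by
  induction m with
  | zero =>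
    refine ⟨0, by simp, by simp [P_zero], 1, ?_, one_pos⟩
    rw [P_one hd]
    simp
  | succ m ih =>
    obtain ⟨u, hu, hP, v, hv, huv⟩ := ih
    have h0 : (0:ℝ) ≤ u := (Nat.cast_nonneg m).trans hu
    have h1 : P d (m + 1) 1 = ((u ^ d + 1 : ℝ) : ℂ) := by
      rw [P_succ, hP]
      push_cast
      ring
    have hv' : v = u ^ d + 1 := by
      rw [hv] at h1
      exact_mod_cast h1
    refine ⟨v, ?_, hv, v ^ d + 1, ?_, ?_⟩
    · push_cast
      rcases Nat.eq_zero_or_pos m with hm | hm
      · subst hm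
        rw [hv']
        have : 0 ≤ u ^ d := by positivity
        simp only [Nat.cast_zero]
        linarith
      · have hm1 : (1:ℝ) ≤ m := by exact_mod_cast hm
        have h1u : 1 ≤ u := hm1.trans hu
        have : u ≤ u ^ d := le_self_pow₀ h1u (by omega)
        linarith
    · rw [P_succ, hv]
      push_cast
      ring
    · have h2 : u ^ d < v ^ d := pow_lt_pow_left₀ huv h0 (by omega)
      linarith

theorem P_one_lt (hd : 2 ≤ d) {a b : ℕ} (h : a < b) : P d b 1 ≠ P d a 1 := by
  have h1 : ∃ f : ℕ → ℝ, StrictMono f ∧ ∀ m, P d m 1 = (f m : ℂ) := by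
    choose u hu hP v hv huv using fun m => P_one_real hd m
    refine ⟨u, strictMono_nat_of_lt_succ fun m => ?_, hP⟩
    have h2 : v m = u (m + 1) := by
      have := (hv m).symm.trans (hP (m + 1))
      exact_mod_cast this
    rw [← h2]
    exact huv m
  obtain ⟨f, hf, hP⟩ := h1
  rw [hP, hP]
  intro h2
  have h3 : f b = f a := by exact_mod_cast h2
  exact (hf h).ne' h3

/-- the parameters with a coincidence in the critical orbit up to time `N` -/
def E1 (d N : ℕ) : Set ℂ := {c | ∃ a b, a < b ∧ b ≤ N ∧ P d b c = P d a c}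

theorem E1_finite (hd : 2 ≤ d) (N : ℕ) : (E1 d N).Finite := by
  have h1 : E1 d N ⊆ ⋃ b ∈ Finset.range (N + 1), ⋃ a ∈ Finset.range b,
      {c : ℂ | (Q d b - Q d a).IsRoot c} := by
    rintro c ⟨a, b, h1, h2, h3⟩
    simp only [mem_iUnion]
    refine ⟨b, Finset.mem_range.2 (by omega), a, Finset.mem_range.2 h1, ?_⟩
    simp [Polynomial.IsRoot, Q_eval, h3]
  refine Set.Finite.subset ?_ h1
  apply Set.Finite.biUnion (Finset.finite_toSet _)
  intro b _
  apply Set.Finite.biUnion (Finset.finite_toSet _)
  intro a ha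
  apply Polynomial.finite_setOfPred_isRoot
  intro h0
  have h2 := congrArg (Polynomial.eval 1) h0
  simp only [Polynomial.eval_sub, Polynomial.eval_zero, Q_eval] at h2
  exact P_one_lt hd (Finset.mem_range.1 ha) (sub_eq_zero.1 h2)

/-- the iterates as polynomials in two variables -/
noncomputable def F2 (d : ℕ) : ℕ → Polynomial (Polynomial ℂ)
  | 0 => Polynomial.X
  | n + 1 => F2 d n ^ d + Polynomial.C Polynomial.X

theorem F2_map (d n : ℕ) (c : ℂ) (x : ℂ) :
    ((F2 d n).map (Polynomial.evalRingHom c)).eval x = (fc d c)^[n] x := by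
  induction n with
  | zero => simp [F2]
  | succ n ih =>
    rw [Function.iterate_succ_apply']
    simp only [F2, Polynomial.map_add, Polynomial.map_pow, Polynomial.eval_add,
      Polynomial.eval_pow, ih, Polynomial.map_C, Polynomial.coe_evalRingHom, Polynomial.eval_X,
      Polynomial.eval_C]
    rfl

theorem F2_monic (hd : 2 ≤ d) (n : ℕ) : (F2 d n).Monic ∧ (F2 d n).natDegree = d ^ n := by
  induction n with
  | zero => exact ⟨Polynomial.monic_X, by simp [F2]⟩
  | succ n ih =>
    obtain ⟨h1, h2⟩ := ih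
    have h3 : (F2 d n ^ d).Monic := h1.pow d
    have h4 : (F2 d n ^ d).natDegree = d ^ (n + 1) := by
      rw [h1.natDegree_pow, h2]
      ring
    have h5 : (Polynomial.C (Polynomial.X : Polynomial ℂ)).degree < (F2 d n ^ d).degree := by
      rw [Polynomial.degree_eq_natDegree h3.ne_zero, h4]
      refine lt_of_le_of_lt Polynomial.degree_C_le ?_
      have : 0 < d ^ (n + 1) := pow_pos (by omega) _
      exact_mod_cast this
    refine ⟨h3.add_of_left h5, ?_⟩
    show (F2 d n ^ d + Polynomial.C Polynomial.X).natDegree = _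
    rw [Polynomial.natDegree_add_eq_left_of_degree_lt h5, h4]

/-- the parameters with a cycle of multiplier one -/
def E2 (d N : ℕ) : Set ℂ := {c | ∃ x, (fc d c)^[N] x = x ∧ deriv ((fc d c)^[N]) x = 1}

theorem E2_finite (hd : 2 ≤ d) {N : ℕ} (hN : 1 ≤ N) : (E2 d N).Finite := by
  obtain ⟨A, hA⟩ : ∃ A, A = F2 d N - Polynomial.X := ⟨_, rfl⟩
  obtain ⟨h1, h2⟩ := F2_monic hd N
  have hdN : 1 < d ^ N := Nat.one_lt_pow (by omega) (by omega)
  have h3 : (Polynomial.X : Polynomial (Polynomial ℂ)).degree < (F2 d N).degree := by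
    rw [Polynomial.degree_eq_natDegree h1.ne_zero, h2, Polynomial.degree_X]
    exact_mod_cast hdN
  have hAm : A.Monic := by
    rw [hA]
    exact h1.sub_of_left h3
  have hAd : A.natDegree = d ^ N := by
    rw [hA, Polynomial.natDegree_sub_eq_left_of_natDegree_lt, h2]
    rw [h2, Polynomial.natDegree_X]
    exact hdN
  obtain ⟨ρ, hρ⟩ : ∃ ρ, ρ = Polynomial.resultant A (Polynomial.derivative A) := ⟨_, rfl⟩
  -- evaluation
  have hev : ∀ c x : ℂ, (A.map (Polynomial.evalRingHom c)).eval x = (fc d c)^[N] x - x := by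
    intro c x
    rw [hA, Polynomial.map_sub, Polynomial.eval_sub, F2_map, Polynomial.map_X, Polynomial.eval_X]
  have hdev : ∀ c x : ℂ, ((Polynomial.derivative A).map (Polynomial.evalRingHom c)).eval x =
      deriv ((fc d c)^[N]) x - 1 := by
    intro c x
    rw [← Polynomial.derivative_map, ← Polynomial.deriv]
    have h4 : (fun x => (A.map (Polynomial.evalRingHom c)).eval x) =
        fun x => (fc d c)^[N] x - x := by
      funext x
      exact hev c x
    rw [h4]
    have h5 := ((diff_it_y d N c) x).hasDerivAt.sub (hasDerivAt_id x)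
    exact h5.deriv
  have hmapdeg : ∀ c : ℂ, (A.map (Polynomial.evalRingHom c)).natDegree = A.natDegree := fun c =>
    hAm.natDegree_map _
  -- the resultant is not zero
  have hρ0 : ρ ≠ 0 := by
    intro h0
    have h4 : Polynomial.resultant (A.map (Polynomial.evalRingHom (0:ℂ)))
        ((Polynomial.derivative A).map (Polynomial.evalRingHom (0:ℂ))) A.natDegree
        (Polynomial.derivative A).natDegree = 0 := by
      rw [Polynomial.resultant_map_map, ← hρ, h0, map_zero]
    have h5 : ((Polynomial.derivative A).map (Polynomial.evalRingHom (0:ℂ))).natDegree =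
        (Polynomial.derivative A).natDegree := by
      rw [← Polynomial.derivative_map, Polynomial.natDegree_derivative,
        Polynomial.natDegree_derivative, hmapdeg]
    have h6 := h4
    rw [← h5, ← hmapdeg 0] at h6
    refine Polynomial.resultant_ne_zero _ _ ?_ h6
    refine (Polynomial.isCoprime_iff_aeval_ne_zero_of_isAlgClosed (k := ℂ) (K := ℂ) _ _).2 ?_
    intro x
    by_contra hcon
    push Not at hcon
    obtain ⟨e1, e2⟩ := hcon
    rw [Polynomial.coe_aeval_eq_eval, hev] at e1
    rw [Polynomial.coe_aeval_eq_eval, hdev] at e2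
    have hit : ∀ n : ℕ, (fc d 0)^[n] = fun x => x ^ (d ^ n) := by
      intro n
      induction n with
      | zero => funext x; simp
      | succ n ih =>
        funext x
        rw [Function.iterate_succ_apply', ih]
        show (x ^ d ^ n) ^ d + 0 = _
        rw [add_zero, ← pow_mul]
        ring_nf
    rw [hit N] at e1 e2
    have h7 : deriv (fun x : ℂ => x ^ (d ^ N)) x = (d ^ N : ℕ) * x ^ (d ^ N - 1) :=
      (hasDerivAt_pow (d ^ N) x).deriv
    rw [h7] at e2
    have h8 : x ^ (d ^ N) = x := sub_eq_zero.1 e1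
    have h9 : ((d ^ N : ℕ) : ℂ) * x ^ (d ^ N - 1) = 1 := sub_eq_zero.1 e2
    have h10 : ((d ^ N : ℕ) : ℂ) * x = x := by
      have h11 : x ^ (d ^ N) = x ^ (d ^ N - 1) * x := by
        rw [← pow_succ]
        congr 1
        omega
      calc ((d ^ N : ℕ) : ℂ) * x = ((d ^ N : ℕ) : ℂ) * (x ^ (d ^ N - 1) * x) := by
            rw [← h11, h8]
        _ = (((d ^ N : ℕ) : ℂ) * x ^ (d ^ N - 1)) * x := by ring
        _ = x := by rw [h9, one_mul]
    have h11 : (((d ^ N : ℕ) : ℂ) - 1) * x = 0 := by
      rw [sub_mul, h10, one_mul, sub_self]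
    have h12 : x ≠ 0 := by
      rintro rfl
      rw [zero_pow (by omega), mul_zero] at h9
      exact zero_ne_one h9
    rcases mul_eq_zero.1 h11 with h | h
    · have h13 : ((d ^ N : ℕ) : ℂ) = 1 := sub_eq_zero.1 h
      have h14 : d ^ N = 1 := by exact_mod_cast h13
      omega
    · exact h12 h
  refine (Polynomial.finite_setOfPred_isRoot hρ0).subset ?_
  rintro c ⟨x, hx1, hx2⟩
  obtain ⟨u, v, -, -, huv⟩ := Polynomial.exists_mul_add_mul_eq_C_resultant (m := A.natDegree)
    (n := (Polynomial.derivative A).natDegree) A (Polynomial.derivative A) le_rfl le_rfl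
    (by left; omega)
  have h4 := congrArg (fun q => (q.map (Polynomial.evalRingHom c)).eval x) huv
  simp only [Polynomial.map_add, Polynomial.map_mul, Polynomial.eval_add, Polynomial.eval_mul,
    hev, hdev, hx1, hx2, sub_self, zero_mul, add_zero, Polynomial.map_C, Polynomial.eval_C,
    Polynomial.coe_evalRingHom] at h4
  show ρ.eval c = 0
  rw [hρ]
  exact h4.symm

end Pool.Agent.J4H70.ML
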