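import Pool.Agent.J4H70.ML.D
import Pool.Agent.Y736.RN.LP
import Pool.Agent.Y736.RN.JZ

set_option autoImplicit false

/-! # Postcritically finite parameters: counting in the parameter plane -/

namespace Pool.Agent.J4H70.ML

open Filter Topology Set Metric MeasureTheory Pool.Agent.H712R2
open Pool.Agent.Y736.RN

variable {d p : ℕ}

/-- the normalised product of a finite set -/
noncomputable def BQ (S : Set ℂ) (R : ℝ) : ℂ := (∏ᶠ y ∈ S, y) / (R : ℂ) ^ S.ncard

theorem BQ_le {S : Set ℂ} {R : ℝ} (hR : 0 < R) (hVR : ∀ y ∈ S, ‖y‖ ≤ R) : ‖BQ S R‖ ≤ 1 := by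
  unfold BQ
  by_cases hf : S.Finite
  · rw [finprod_mem_eq_finite_toFinset_prod _ hf, Set.ncard_eq_toFinset_card _ hf, norm_div,
      norm_prod, norm_pow, Complex.norm_real, Real.norm_eq_abs, abs_of_pos hR,
      div_le_one (by positivity)]
    rw [← Finset.prod_const]
    apply Finset.prod_le_prod (fun _ _ => norm_nonneg _)
    intro y hy
    exact hVR y ((Set.Finite.mem_toFinset hf).1 hy)
  · have h1 : (∏ᶠ y ∈ S, y) = 1 := by
      apply finprod_mem_eq_one_of_infinite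
      intro hfin
      apply hf
      refine (hfin.union (Set.finite_singleton (1 : ℂ))).subset ?_
      intro y hy
      by_cases h : y = 1
      · exact Or.inr h
      · exact Or.inl ⟨hy, h⟩
    rw [h1, Set.Infinite.ncard hf]
    simp

theorem BQ_ge {S : Set ℂ} {R η : ℝ} (hη : 0 < η) (hηR : η ≤ R) (hf : S.Finite) {N : ℕ}
    (hN : S.ncard ≤ N) (h : ∀ y ∈ S, η ≤ ‖y‖) : (η / R) ^ N ≤ ‖BQ S R‖ := by
  have hR : 0 < R := hη.trans_le hηR
  have h0 : η / R ≤ 1 := (div_le_one hR).2 hηR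
  refine (pow_le_pow_of_le_one (by positivity) h0 hN).trans ?_
  unfold BQ
  rw [finprod_mem_eq_finite_toFinset_prod _ hf, Set.ncard_eq_toFinset_card _ hf, norm_div,
    norm_prod, norm_pow, Complex.norm_real, Real.norm_eq_abs, abs_of_pos hR, div_pow]
  gcongr
  rw [← Finset.prod_const]
  apply Finset.prod_le_prod (fun _ _ => hη.le)
  intro y hy
  exact h y ((Set.Finite.mem_toFinset hf).1 hy)

theorem BQ_small {S : Set ℂ} {R ε : ℝ} (hR : 0 < R) (hVR : ∀ y ∈ S, ‖y‖ ≤ R) (hf : S.Finite)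
    {y : ℂ} (hy : y ∈ S) (hyε : ‖y‖ < ε * R) : ‖BQ S R‖ < ε := by
  classical
  unfold BQ
  rw [finprod_mem_eq_finite_toFinset_prod _ hf, Set.ncard_eq_toFinset_card _ hf, norm_div,
    norm_prod, norm_pow, Complex.norm_real, Real.norm_eq_abs, abs_of_pos hR,
    div_lt_iff₀ (by positivity)]
  have hmem : y ∈ hf.toFinset := (Set.Finite.mem_toFinset hf).2 hy
  rw [← Finset.mul_prod_erase _ _ hmem]
  have h1 : ∏ x ∈ hf.toFinset.erase y, ‖x‖ ≤ R ^ (hf.toFinset.erase y).card := by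
    rw [← Finset.prod_const]
    apply Finset.prod_le_prod (fun _ _ => norm_nonneg _)
    intro x hx
    exact hVR x ((Set.Finite.mem_toFinset hf).1 (Finset.mem_of_mem_erase hx))
  have h2 : hf.toFinset.card = (hf.toFinset.erase y).card + 1 := by
    rw [Finset.card_erase_of_mem hmem]
    have := Finset.card_pos.2 ⟨y, hmem⟩
    omega
  rw [h2, pow_succ]
  calc ‖y‖ * ∏ x ∈ hf.toFinset.erase y, ‖x‖ ≤ ‖y‖ * R ^ (hf.toFinset.erase y).card := by gcongr
    _ < ε * R * R ^ (hf.toFinset.erase y).card := by gcongr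
    _ = ε * (R ^ (hf.toFinset.erase y).card * R) := by ring

theorem SS_eq (d p : ℕ) (V : Set ℂ) (i j : ℕ) (c : ℂ) :
    SS d p V i j c = {y : ℂ | (c, y) ∈ OO d p V j ∧
      (fc d c)^[p * j] y - (fc d c)^[p * i] y = 0} := by
  ext y
  simp [SS, OO, sub_eq_zero]

/-- compactness of the trapped points with a return relation -/
theorem compact_SS {V : Set ℂ} (hVo : IsOpen V) (hVb : Bornology.IsBounded V)
    {B : Set ℂ} (hfr : ∀ c ∈ B, ∀ z ∈ frontier V, (fc d c)^[p] z ∉ closure V)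
    {i j : ℕ} (hij : i < j) {c₀ : ℂ} {r : ℝ} (hr : closedBall c₀ r ⊆ B) :
    IsCompact {q : ℂ × ℂ | q ∈ OO d p V j ∧ q.1 ∈ closedBall c₀ r ∧
      (fc d q.1)^[p * j] q.2 - (fc d q.1)^[p * i] q.2 = 0} := by
  have heq : {q : ℂ × ℂ | q ∈ OO d p V j ∧ q.1 ∈ closedBall c₀ r ∧
      (fc d q.1)^[p * j] q.2 - (fc d q.1)^[p * i] q.2 = 0} = (closedBall c₀ r ×ˢ closure V) ∩
      ((⋂ l ∈ Finset.range j, (fun q : ℂ × ℂ => (fc d q.1)^[p * l] q.2) ⁻¹' closure V) ∩
        {q | (fc d q.1)^[p * j] q.2 = (fc d q.1)^[p * i] q.2}) := by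
    ext ⟨c, y⟩
    simp only [OO, mem_ofPred_eq, mem_inter_iff, mem_prod, mem_iInter, Finset.mem_range,
      mem_preimage, sub_eq_zero]
    constructor
    · rintro ⟨h1, h2, h3⟩
      refine ⟨⟨h2, subset_closure ?_⟩, fun i hi => subset_closure (h1 i hi), h3⟩
      have := h1 0 (by omega)
      simpa using this
    · rintro ⟨⟨h1, h2⟩, h3, h4⟩
      refine ⟨?_, h1, h4⟩
      intro l hl
      by_contra hcon
      have hf : (fc d c)^[p * l] y ∈ frontier V := by
        rw [hVo.frontier_eq]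
        exact ⟨h3 l hl, hcon⟩
      apply hfr c (hr h1) _ hf
      rw [← Function.iterate_add_apply, show p + p * l = p * (l + 1) by ring]
      rcases Nat.lt_or_ge (l + 1) j with h5 | h5
      · exact h3 (l + 1) h5
      · rw [show l + 1 = j by omega, h4]
        exact h3 i hij
  rw [heq]
  refine IsCompact.inter_right ((isCompact_closedBall _ _).prod ?_) ?_
  · exact Metric.isCompact_of_isClosed_isBounded isClosed_closure hVb.closure
  · refine IsClosed.inter ?_ (isClosed_eq (cont_it d (p * j)) (cont_it d (p * i)))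
    exact isClosed_biInter fun l _ => isClosed_closure.preimage (cont_it d (p * l))

/-- the return relations have simple solutions outside of the exceptional parameters -/
theorem simple_SS (hd : 2 ≤ d) {V : Set ℂ} {i j : ℕ} (hij : i < j) {c : ℂ}
    (h1 : c ∉ E1 d (p * j)) (h2 : c ∉ E2 d (p * (j - i))) (hp : 1 ≤ p) {y : ℂ}
    (hy : y ∈ SS d p V i j c) :
    deriv (fun y => (fc d c)^[p * j] y - (fc d c)^[p * i] y) y ≠ 0 := by
  obtain ⟨x, hx⟩ : ∃ x, x = (fc d c)^[p * i] y := ⟨_, rfl⟩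
  have hji : p * j = p * (j - i) + p * i := by
    rw [← Nat.mul_add]
    congr 1
    omega
  have hper : (fc d c)^[p * (j - i)] x = x := by
    rw [hx, ← Function.iterate_add_apply, ← hji]
    exact hy.2
  have hne : deriv ((fc d c)^[p * i]) y ≠ 0 := by
    apply deriv_it_ne hd hx.symm
    intro k hk1 hk2 hk3
    apply h1
    refine ⟨k, p * (j - i) + k, ?_, ?_, ?_⟩
    · have : 0 < p * (j - i) := Nat.mul_pos hp (by omega)
      omega
    · rw [hji]
      omega
    · show (fc d c)^[p * (j - i) + k] 0 = (fc d c)^[k] 0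
      rw [Function.iterate_add_apply]
      have : (fc d c)^[k] 0 = x := hk3
      rw [this, hper]
  have hd1 : deriv ((fc d c)^[p * j]) y =
      deriv ((fc d c)^[p * (j - i)]) x * deriv ((fc d c)^[p * i]) y := by
    rw [hji, Function.iterate_add, hx]
    exact (((diff_it_y d (p * (j - i)) c) _).hasDerivAt.comp y
      ((diff_it_y d (p * i) c) y).hasDerivAt).deriv
  have h3 : deriv (fun y => (fc d c)^[p * j] y - (fc d c)^[p * i] y) y =
      deriv ((fc d c)^[p * j]) y - deriv ((fc d c)^[p * i]) y :=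
    (((diff_it_y d (p * j) c) y).hasDerivAt.sub ((diff_it_y d (p * i) c) y).hasDerivAt).deriv
  rw [h3, hd1]
  have h4 : deriv ((fc d c)^[p * (j - i)]) x ≠ 1 := fun h => h2 ⟨x, hper, h⟩
  have h5 : deriv ((fc d c)^[p * (j - i)]) x * deriv ((fc d c)^[p * i]) y -
      deriv ((fc d c)^[p * i]) y =
      (deriv ((fc d c)^[p * (j - i)]) x - 1) * deriv ((fc d c)^[p * i]) y := by ring
  rw [h5]
  exact mul_ne_zero (sub_ne_zero.2 h4) hne

theorem local_S (hd : 2 ≤ d) (hp : 1 ≤ p) {V : Set ℂ} (hVo : IsOpen V)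
    (hVb : Bornology.IsBounded V) {B : Set ℂ} (hBo : IsOpen B)
    (hfr : ∀ c ∈ B, ∀ z ∈ frontier V, (fc d c)^[p] z ∉ closure V)
    {i j : ℕ} (hij : i < j) (R : ℝ) {c₀ : ℂ} (hc₀ : c₀ ∈ B)
    (h1 : c₀ ∉ E1 d (p * j)) (h2 : c₀ ∉ E2 d (p * (j - i))) :
    (∀ᶠ c in 𝓝 c₀, (SS d p V i j c).Finite ∧
      (SS d p V i j c).ncard = (SS d p V i j c₀).ncard) ∧
    DifferentiableAt ℂ (fun c => BQ (SS d p V i j c) R) c₀ := by
  obtain ⟨r, hr, hrB⟩ := Metric.isOpen_iff.1 hBo c₀ hc₀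
  have h3 := lp (fun c y => (fc d c)^[p * j] y - (fc d c)^[p * i] y) (OO d p V j) c₀ (r / 2)
    ((contDiff_it d (p * j)).sub (contDiff_it d (p * i))) (isOpen_OO d p hVo j) (half_pos hr)
    (compact_SS hVo hVb hfr hij ((closedBall_subset_ball (half_lt_self hr)).trans hrB)) (by
      intro y hy1 hy2
      exact simple_SS hd (V := V) hij h1 h2 hp ⟨hy1, sub_eq_zero.1 hy2⟩)
  simp only [← SS_eq] at h3
  obtain ⟨h3, h4⟩ := h3
  refine ⟨h3, ?_⟩
  have h5 : DifferentiableAt ℂ (fun c => (∏ᶠ y ∈ SS d p V i j c, y) /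
      (R : ℂ) ^ (SS d p V i j c₀).ncard) c₀ := h4.div_const _
  refine h5.congr_of_eventuallyEq ?_
  filter_upwards [h3] with c hc
  unfold BQ
  rw [hc.2]

/-- a difference of iterates takes a value only at isolated points -/
theorem ev_ne2 (hd : 2 ≤ d) (c y₀ w : ℂ) {M N : ℕ} (h : M < N) :
    ∀ᶠ y in 𝓝[≠] y₀, (fc d c)^[N] y - (fc d c)^[M] y ≠ w := by
  have h1 : ip d N c - ip d M c - Polynomial.C w ≠ 0 := by
    intro h0
    have h2 : (ip d N c).natDegree = (ip d M c + Polynomial.C w).natDegree := by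
      congr 1
      linear_combination h0
    rw [ip_natDegree hd, Polynomial.natDegree_add_C, ip_natDegree hd] at h2
    have := Nat.pow_lt_pow_right (show 1 < d by omega) h
    omega
  have h2 : {y : ℂ | (fc d c)^[N] y - (fc d c)^[M] y = w}.Finite := by
    refine (Finset.finite_toSet (ip d N c - ip d M c - Polynomial.C w).roots.toFinset).subset ?_
    intro x hx
    rw [Finset.mem_coe, Multiset.mem_toFinset, Polynomial.mem_roots h1, Polynomial.IsRoot.def,
      Polynomial.eval_sub, Polynomial.eval_sub, ip_eval, ip_eval, Polynomial.eval_C, sub_eq_zero]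
    exact hx
  have h3 : IsClosed ({y : ℂ | (fc d c)^[N] y - (fc d c)^[M] y = w} \ {y₀}) :=
    (h2.subset sdiff_subset).isClosed
  have h4 : ({y : ℂ | (fc d c)^[N] y - (fc d c)^[M] y = w} \ {y₀})ᶜ ∈ 𝓝 y₀ :=
    h3.isOpen_compl.mem_nhds (by simp)
  filter_upwards [mem_nhdsWithin_of_mem_nhds h4, self_mem_nhdsWithin] with y hy1 hy2 hy3
  exact hy1 ⟨hy3, hy2⟩

/-- return relations of the critical point persist -/
theorem persist2 (hd : 2 ≤ d) (hp : 1 ≤ p) {V : Set ℂ} (hV : IsOpen V) {ĉ : ℂ} {i j : ℕ}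
    (hij : i < j) (h1 : ∀ l < j, P d (p * l) ĉ ∈ V) (h2 : P d (p * j) ĉ = P d (p * i) ĉ) {ε : ℝ}
    (hε : 0 < ε) : ∀ᶠ c in 𝓝 ĉ, ∃ y, ‖y‖ < ε ∧ y ∈ SS d p V i j c := by
  obtain ⟨H, hH⟩ : ∃ H : ℂ → ℂ → ℂ, H = fun c y => (fc d c)^[p * j] y - (fc d c)^[p * i] y :=
    ⟨_, rfl⟩
  have hpij : p * i < p * j := Nat.mul_lt_mul_of_pos_left hij hp
  have hHc : Continuous fun q : ℂ × ℂ => H q.1 q.2 := by
    rw [hH]
    exact (cont_it d (p * j)).sub (cont_it d (p * i))
  have hHd : ∀ c, Differentiable ℂ (H c) := by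
    intro c
    rw [hH]
    exact (diff_it_y d (p * j) c).sub (diff_it_y d (p * i) c)
  have hH0 : H ĉ 0 = 0 := by
    rw [hH]
    exact sub_eq_zero.2 h2
  have hO : OO d p V j ∈ 𝓝 (ĉ, (0 : ℂ)) := (isOpen_OO d p hV j).mem_nhds h1
  rw [nhds_prod_eq] at hO
  obtain ⟨N, hN, T, hT, hNT⟩ := mem_prod_iff.1 hO
  obtain ⟨t, ht, hTt⟩ := Metric.mem_nhds_iff.1 hT
  have h3 : ∀ᶠ y in 𝓝[≠] (0:ℂ), H ĉ y ≠ 0 := by
    rw [hH]
    exact ev_ne2 hd ĉ 0 0 hpij
  rw [eventually_nhdsWithin_iff, Metric.eventually_nhds_iff] at h3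
  obtain ⟨s, hs, h3⟩ := h3
  obtain ⟨r, hr⟩ : ∃ r, r = min (min (t / 2) (s / 2)) (ε / 2) := ⟨_, rfl⟩
  have hr0 : 0 < r := by rw [hr]; positivity
  have hrt : r < t := by
    have := min_le_left (min (t / 2) (s / 2)) (ε / 2)
    have := min_le_left (t / 2) (s / 2)
    rw [hr]; linarith
  have hrs : r < s := by
    have := min_le_left (min (t / 2) (s / 2)) (ε / 2)
    have := min_le_right (t / 2) (s / 2)
    rw [hr]; linarith
  have hrε : r < ε := by
    have := min_le_right (min (t / 2) (s / 2)) (ε / 2)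
    rw [hr]; linarith
  have hsph : ∀ y ∈ sphere (0 : ℂ) r, H ĉ y ≠ 0 := by
    intro y hy
    rw [mem_sphere_zero_iff_norm] at hy
    apply h3 (by rw [dist_zero_right, hy]; exact hrs)
    intro h0
    rw [mem_singleton_iff] at h0
    rw [h0, norm_zero] at hy
    linarith
  obtain ⟨y₁, hy₁, hmin⟩ := (isCompact_sphere (0 : ℂ) r).exists_isMinOn
    (NormedSpace.sphere_nonempty.2 hr0.le) (f := fun y => ‖H ĉ y‖)
    ((hHd ĉ).continuous.norm.continuousOn)
  obtain ⟨m₀, hm₀⟩ : ∃ m₀, m₀ = ‖H ĉ y₁‖ := ⟨_, rfl⟩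
  have hm0 : 0 < m₀ := by
    rw [hm₀]
    exact norm_pos_iff.2 (hsph _ hy₁)
  have hmin' : ∀ y ∈ sphere (0 : ℂ) r, m₀ ≤ ‖H ĉ y‖ := by
    intro y hy
    rw [hm₀]
    exact hmin hy
  -- uniform closeness
  have hun : ∀ᶠ c in 𝓝 ĉ, ∀ y ∈ closedBall (0 : ℂ) r, ‖H c y - H ĉ y‖ < m₀ / 4 := by
    have hopen : IsOpen {q : ℂ × ℂ | ‖H q.1 q.2 - H ĉ q.2‖ < m₀ / 4} := by
      refine isOpen_lt ?_ continuous_const
      exact (hHc.sub ((hHd ĉ).continuous.comp continuous_snd)).norm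
    obtain ⟨u, v, hu, hv, hsu, htv, huv⟩ := generalized_tube_lemma (isCompact_singleton (x := ĉ))
      (isCompact_closedBall (0 : ℂ) r) hopen (by
        rintro ⟨a, b⟩ ⟨ha, hb⟩
        rw [mem_singleton_iff] at ha
        simp only [mem_ofPred_eq]
        have ha' : a = ĉ := ha
        rw [ha', sub_self, norm_zero]
        positivity)
    filter_upwards [hu.mem_nhds (hsu rfl)] with c hc y hy
    exact huv (show (c, y) ∈ u ×ˢ v from ⟨hc, htv hy⟩)
  filter_upwards [hun, hN] with c hc hcN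
  have hw0 : ‖H c 0‖ < m₀ / 4 := by
    have := hc 0 (mem_closedBall_self hr0.le)
    rwa [hH0, sub_zero] at this
  have h4 : ball (H c 0) (m₀ / 2 / 2) ⊆ H c '' closedBall 0 r := by
    apply DiffContOnCl.ball_subset_image_closedBall (hHd c).diffContOnCl hr0
    · intro y hy
      have h5 := hmin' y hy
      have h6 := hc y (sphere_subset_closedBall hy)
      have h7 : H ĉ y = (H c y - H c 0) - (H c y - H ĉ y) + H c 0 := by ring
      have h8 : ‖H ĉ y‖ ≤ ‖H c y - H c 0‖ + ‖H c y - H ĉ y‖ + ‖H c 0‖ := by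
        conv_lhs => rw [h7]
        exact (norm_add_le _ _).trans (add_le_add (norm_sub_le _ _) le_rfl)
      linarith
    · have h5 : ∀ᶠ y in 𝓝[≠] (0:ℂ), H c y ≠ H c 0 := by
        have := ev_ne2 hd c 0 (H c 0) hpij
        rw [hH] at this ⊢
        exact this
      exact (h5.frequently).filter_mono nhdsWithin_le_nhds
  obtain ⟨y, hy1, hy2⟩ := h4 (show (0:ℂ) ∈ ball _ _ by
    rw [mem_ball, dist_eq_norm, zero_sub, norm_neg]
    linarith)
  rw [mem_closedBall_zero_iff] at hy1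
  refine ⟨y, by linarith, ?_, ?_⟩
  · exact hNT (show (c, y) ∈ N ×ˢ T from ⟨hcN, hTt (by rw [mem_ball_zero_iff]; linarith)⟩)
  · rw [hH] at hy2
    exact sub_eq_zero.1 hy2

end Pool.Agent.J4H70.ML
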